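import Pool.Agent.H518.ThetaDefs

/-!
# Consistent path systems in theta graphs

The general facts about consistent path systems, and a criterion for theta graphs.
-/

set_option autoImplicit false
set_option linter.unusedSectionVars false
set_option linter.unusedVariables false

namespace Pool.Agent.H518.ThetaCore

open SimpleGraph Pool.Agent.H518.ThetaDefs

/-! ## Walks -/

section Walks

variable {V : Type} {G : SimpleGraph V} {w : Sym2 V → ℝ}

@[simp] lemma wt_nil {u : V} : wt w (Walk.nil : G.Walk u u) = 0 := by simp [wt]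

@[simp] lemma wt_cons {u v x : V} (h : G.Adj u v) (p : G.Walk v x) :
    wt w (Walk.cons h p) = w s(u, v) + wt w p := by simp [wt]

lemma wt_append {u v x : V} (p : G.Walk u v) (q : G.Walk v x) :
    wt w (p.append q) = wt w p + wt w q := by simp [wt]

lemma wt_reverse {u v : V} (p : G.Walk u v) : wt w p.reverse = wt w p := by
  simp [wt, List.sum_reverse]

variable (w) (τ : ℕ → V) (g : ℕ → ℝ) (N : ℕ)

/-- A path which starts at `τ n` away from `τ (n - 1)` and ends at `τ M` runs along `τ`. -/
lemma runEnd (hinj : ∀ a b, a ≤ N → b ≤ N → τ a = τ b → a = b)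
    (hnbr : ∀ n, 0 < n → n < N → ∀ v, G.Adj (τ n) v → v = τ (n - 1) ∨ v = τ (n + 1))
    (hw : ∀ n, n < N → w s(τ n, τ (n + 1)) = g (n + 1) - g n) :
    ∀ (m n M : ℕ) (u v : V) (p : G.Walk u v), p.IsPath → u = τ n → v = τ M → M = n + m →
      0 < n → M ≤ N → τ (n - 1) ∉ p.support →
      wt w p = g M - g n ∧ (∀ j, n ≤ j → j ≤ M → τ j ∈ p.support) ∧
        ∀ x ∈ p.support, ∃ j, n ≤ j ∧ j ≤ M ∧ x = τ j := by
  intro m
  induction m with
  | zero =>
    intro n M u v p hp hu hv hM hn hMN hnot
    obtain rfl : M = n := by omega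
    subst hu
    subst hv
    cases p with
    | nil =>
      refine ⟨by simp, fun j h1 h2 => ?_, fun x hx => ?_⟩
      · obtain rfl : j = M := by omega
        simp
      · simp at hx
        exact ⟨M, le_rfl, le_rfl, hx⟩
    | cons h q =>
      exfalso
      have := (Walk.cons_isPath_iff h q).1 hp
      exact this.2 q.end_mem_support
  | succ m ih =>
    intro n M u v p hp hu hv hM hn hMN hnot
    subst hu
    cases p with
    | nil =>
      exfalso
      have := hinj n M (by omega) hMN hv
      omega
    | cons h q =>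
      rename_i x
      have hc := (Walk.cons_isPath_iff h q).1 hp
      have hx : x = τ (n + 1) := by
        rcases hnbr n hn (by omega) x h with h1 | h1
        · exfalso
          apply hnot
          rw [Walk.support_cons, List.mem_cons]
          right
          rw [← h1]
          exact q.start_mem_support
        · exact h1
      obtain ⟨h1, h2, h3⟩ := ih (n + 1) M x v q hc.1 hx hv (by omega) (by omega) hMN
        (by simpa using hc.2)
      refine ⟨?_, fun j hj1 hj2 => ?_, fun y hy => ?_⟩
      · rw [wt_cons, h1, hx, hw n (by omega)]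
        ring
      · rw [Walk.support_cons, List.mem_cons]
        rcases Nat.eq_or_lt_of_le hj1 with h4 | h4
        · left; rw [h4]
        · right; exact h2 j h4 hj2
      · rw [Walk.support_cons, List.mem_cons] at hy
        rcases hy with hy | hy
        · exact ⟨n, le_rfl, by omega, hy⟩
        · obtain ⟨j, h4, h5, h6⟩ := h3 y hy
          exact ⟨j, by omega, h5, h6⟩

/-- A path which starts at `τ n` away from `τ (n - 1)` and does not end on `τ` before `τ N` passes
through all of `τ n, …, τ N`. -/
lemma runOut (hnbr : ∀ n, 0 < n → n < N → ∀ v, G.Adj (τ n) v → v = τ (n - 1) ∨ v = τ (n + 1)) :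
    ∀ (m n : ℕ) (u v : V) (p : G.Walk u v), p.IsPath → u = τ n → N = n + m →
      0 < n → (∀ M, n ≤ M → M < N → v ≠ τ M) → τ (n - 1) ∉ p.support →
      ∀ j, n ≤ j → j ≤ N → τ j ∈ p.support := by
  intro m
  induction m with
  | zero =>
    intro n u v p hp hu hM hn hv hnot j h1 h2
    obtain rfl : j = n := by omega
    rw [← hu]
    exact p.start_mem_support
  | succ m ih =>
    intro n u v p hp hu hM hn hv hnot j hj1 hj2
    subst hu
    cases p with
    | nil =>
      exfalso
      exact hv n le_rfl (by omega) rfl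
    | cons h q =>
      rename_i x
      have hc := (Walk.cons_isPath_iff h q).1 hp
      have hx : x = τ (n + 1) := by
        rcases hnbr n hn (by omega) x h with h1 | h1
        · exfalso
          apply hnot
          rw [Walk.support_cons, List.mem_cons]
          right
          rw [← h1]
          exact q.start_mem_support
        · exact h1
      rw [Walk.support_cons, List.mem_cons]
      rcases Nat.eq_or_lt_of_le hj1 with h4 | h4
      · left; rw [h4]
      · right
        exact ih (n + 1) x v q hc.1 hx (by omega) (by omega)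
          (fun M h5 h6 => hv M (by omega) h6) (by simpa using hc.2) j h4 hj2

end Walks

/-! ## Betweenness in a consistent path system -/

section Between

variable {V : Type} {G : SimpleGraph V} {P : PathSystem G}

/-- `x` lies on the path from `u` to `v`. -/
def On (P : PathSystem G) (x u v : V) : Prop := x ∈ (P.path u v).support

lemma On.symm {x u v : V} (h : On P x u v) : On P x v u := by
  unfold On at *
  rw [P.symm, Walk.support_reverse, List.mem_reverse]
  exact h

lemma on_start (u v : V) : On P u u v := Walk.start_mem_support _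

lemma on_end (u v : V) : On P v u v := Walk.end_mem_support _

lemma split (hP : P.Consistent) {x u v : V} (h : On P x u v) :
    P.path u v = (P.path u x).append (P.path x v) := by
  classical
  have h : x ∈ (P.path u v).support := h
  have h0 := (P.path u v).take_spec h
  have h1 := hP u v u x Walk.nil ((P.path u v).takeUntil x h) ((P.path u v).dropUntil x h)
    (by rw [Walk.nil_append, h0])
  have h2 := hP u v x v ((P.path u v).takeUntil x h) ((P.path u v).dropUntil x h) Walk.nil
    (by rw [Walk.append_nil, h0])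
  rw [h1, h2, h0]

lemma On.left (hP : P.Consistent) {x y u v : V} (h : On P x u v) (h' : On P y u x) :
    On P y u v := by
  unfold On
  rw [split hP h, Walk.mem_support_append_iff]
  exact Or.inl h'

lemma On.right (hP : P.Consistent) {x y u v : V} (h : On P x u v) (h' : On P y x v) :
    On P y u v := by
  unfold On
  rw [split hP h, Walk.mem_support_append_iff]
  exact Or.inr h'

/-- A vertex on both parts of a path is the splitting vertex. -/
lemma On.meet (hP : P.Consistent) {x y u v : V} (h : On P x u v) (h1 : On P y u x)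
    (h2 : On P y x v) : y = x := by
  by_contra hne
  have hp := P.isPath u v
  rw [split hP h] at hp
  have hd := hp.support_nodup
  rw [Walk.support_append] at hd
  have h3 : y ∈ (P.path x v).support.tail := by
    unfold On at h2
    rw [Walk.mem_support_iff] at h2
    rcases h2 with h2 | h2
    · exact absurd h2 hne
    · exact h2
  exact (List.disjoint_of_nodup_append hd) h1 h3

lemma On.antisymm (hP : P.Consistent) {x u v : V} (h : On P x u v) (h' : On P u x v) : u = x :=
  h.meet hP (on_start u x) h'

/-- If `y` comes before `x` on the path from `u` to `v`, then `x` is on the path from `y` to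
`v`. -/
lemma On.after (hP : P.Consistent) {x y u v : V} (h : On P x u v) (h' : On P y u x) :
    On P x y v := by
  have h1 : On P y u v := h.left hP h'
  have e1 := split hP h
  rw [split hP h'] at e1
  have e2 := hP u v y v (P.path u y) ((P.path y x).append (P.path x v)) Walk.nil
    (by rw [e1, Walk.append_nil, Walk.append_assoc])
  unfold On
  rw [e2, Walk.mem_support_append_iff]
  exact Or.inl (Walk.end_mem_support _)

lemma path_self (u : V) : P.path u u = Walk.nil := by
  have h := P.isPath u u
  have h1 : ∀ p : G.Walk u u, p.IsPath → p = Walk.nil := by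
    intro p hp
    cases p with
    | nil => rfl
    | cons h q =>
      exact absurd q.end_mem_support ((Walk.cons_isPath_iff h q).1 hp).2
  exact h1 _ h

/-- The length of the path from `u` to `v`. -/
noncomputable def dd (w : Sym2 V → ℝ) (P : PathSystem G) (u v : V) : ℝ := wt w (P.path u v)

lemma dd_symm (w : Sym2 V → ℝ) (u v : V) : dd w P u v = dd w P v u := by
  unfold dd
  rw [P.symm v u, wt_reverse]

lemma dd_self (w : Sym2 V → ℝ) (u : V) : dd w P u u = 0 := by
  unfold dd
  rw [path_self]
  simp

lemma On.dd (hP : P.Consistent) (w : Sym2 V → ℝ) {x u v : V} (h : On P x u v) :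
    dd w P u v = dd w P u x + dd w P x v := by
  unfold ThetaCore.dd
  rw [split hP h, wt_append]

/-- The first step of a path of the system. -/
lemma first_step (hP : P.Consistent) {u v : V} (hne : u ≠ v) :
    ∃ (x : V) (h : G.Adj u x), P.path u v = Walk.cons h (P.path x v) := by
  have key : ∀ (p : G.Walk u v), P.path u v = p →
      ∃ (x : V) (h : G.Adj u x), P.path u v = Walk.cons h (P.path x v) := by
    intro p hp
    cases p with
    | nil => exact absurd rfl hne
    | cons h q =>
      rename_i x
      refine ⟨x, h, ?_⟩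
      have h2 := hP u v x v (Walk.cons h Walk.nil) q Walk.nil (by rw [hp]; simp)
      rw [h2, hp]
  exact key _ rfl

end Between

/-! ## The theta graph -/

section ThetaGraph

variable {l : Fin 3 → ℕ}

lemma pt_zero (i : Fin 3) : (pt i 0 : TV l) = TV.s := by simp [pt]

lemma pt_mid (i : Fin 3) {k : ℕ} (h0 : 0 < k) (h : k < l i) :
    (pt i k : TV l) = TV.mid i ⟨k - 1, by omega⟩ := by
  unfold pt
  rw [if_neg (by omega), dif_pos (by omega)]

lemma pt_end (i : Fin 3) (h : 0 < l i) : (pt i (l i) : TV l) = TV.t := by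
  unfold pt
  rw [if_neg (by omega), dif_neg (by omega)]

lemma vertex_cases (v : TV l) :
    v = TV.s ∨ v = TV.t ∨ ∃ i k, 0 < k ∧ k < l i ∧ v = pt i k := by
  cases v with
  | s => left; rfl
  | t => right; left; rfl
  | mid i k =>
    right; right
    have hk := k.2
    refine ⟨i, k + 1, by omega, by omega, ?_⟩
    rw [pt_mid i (by omega) (by omega)]
    congr

lemma pt_inj {i j : Fin 3} {k m : ℕ} (hk : 0 < k) (hk' : k < l i)
    (hm : m ≤ l j) (h : (pt i k : TV l) = pt j m) : i = j ∧ k = m := by
  rw [pt_mid i hk hk'] at h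
  rcases Nat.eq_zero_or_pos m with h0 | h0
  · subst h0
    rw [pt_zero] at h
    cases h
  · rcases Nat.eq_or_lt_of_le hm with h1 | h1
    · subst h1
      rw [pt_end j h0] at h
      cases h
    · rw [pt_mid j h0 h1] at h
      injection h with h2 h3
      subst h2
      refine ⟨rfl, ?_⟩
      have := congrArg Fin.val (eq_of_heq h3)
      simp at this
      omega

lemma pt_inj' (hl : ∀ i, 2 ≤ l i) {i : Fin 3} {a b : ℕ} (ha : a ≤ l i) (hb : b ≤ l i)
    (h : (pt i a : TV l) = pt i b) : a = b := by
  have h2 := hl i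
  rcases Nat.eq_zero_or_pos a with h0 | h0
  · rcases Nat.eq_zero_or_pos b with h1 | h1
    · omega
    · rcases Nat.eq_or_lt_of_le hb with h3 | h3
      · subst h0
        subst h3
        rw [pt_zero, pt_end i h1] at h
        cases h
      · exact ((pt_inj h1 h3 ha h.symm).2).symm
  · rcases Nat.eq_or_lt_of_le ha with h3 | h3
    · rcases Nat.eq_zero_or_pos b with h1 | h1
      · subst h1
        subst h3
        rw [pt_zero, pt_end i h0] at h
        cases h
      · rcases Nat.eq_or_lt_of_le hb with h4 | h4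
        · omega
        · exact ((pt_inj h1 h4 ha h.symm).2).symm
    · exact (pt_inj h0 h3 hb h).2

lemma adj_iff {u v : TV l} : (theta l).Adj u v ↔ u ≠ v ∧
    ((∃ i k, k < l i ∧ u = pt i k ∧ v = pt i (k + 1)) ∨
      (∃ i k, k < l i ∧ v = pt i k ∧ u = pt i (k + 1))) := by
  unfold theta
  rw [SimpleGraph.fromRel_adj]

lemma adj_pt (hl : ∀ i, 2 ≤ l i) {i : Fin 3} {k : ℕ} (h : k < l i) :
    (theta l).Adj (pt i k) (pt i (k + 1)) := by
  rw [adj_iff]
  refine ⟨fun h1 => ?_, Or.inl ⟨i, k, h, rfl, rfl⟩⟩
  have := pt_inj' hl (by omega) (by omega) h1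
  omega

lemma nbr (hl : ∀ i, 2 ≤ l i) {i : Fin 3} {k : ℕ} (hk : 0 < k) (hk' : k < l i) {v : TV l}
    (h : (theta l).Adj (pt i k) v) : v = pt i (k - 1) ∨ v = pt i (k + 1) := by
  rw [adj_iff] at h
  obtain ⟨-, ⟨j, m, hm, h1, h2⟩ | ⟨j, m, hm, h1, h2⟩⟩ := h
  · obtain ⟨rfl, rfl⟩ := pt_inj hk hk' (by omega) h1
    right; exact h2
  · obtain ⟨rfl, rfl⟩ := pt_inj hk hk' (by omega) h2
    left; exact h1

lemma nbr_s (hl : ∀ i, 2 ≤ l i) {v : TV l} (h : (theta l).Adj TV.s v) : ∃ i, v = pt i 1 := by
  rw [adj_iff] at h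
  obtain ⟨-, ⟨j, m, hm, h1, h2⟩ | ⟨j, m, hm, h1, h2⟩⟩ := h
  · rw [← pt_zero j] at h1
    have := pt_inj' hl (by omega) (by omega) h1
    subst this
    exact ⟨j, h2⟩
  · rw [← pt_zero j] at h2
    have := pt_inj' hl (by omega) (by omega) h2
    omega

/-- The weight given by the coordinates `y i k` of the vertices `pt i k`. -/
noncomputable def ww (y : Fin 3 → ℕ → ℝ) : TV l → TV l → ℝ
  | .s, .mid i k => |y i 0 - y i (k + 1)|
  | .mid i k, .s => |y i 0 - y i (k + 1)|
  | .t, .mid i k => |y i (l i) - y i (k + 1)|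
  | .mid i k, .t => |y i (l i) - y i (k + 1)|
  | .mid i k, .mid j m => |y i (k + 1) - y j (m + 1)|
  | _, _ => 0

lemma ww_symm (y : Fin 3 → ℕ → ℝ) (u v : TV l) : ww y u v = ww y v u := by
  cases u <;> cases v <;> simp only [ww]
  rw [abs_sub_comm]

/-- The weights of the edges given by the coordinates. -/
noncomputable def wy (l : Fin 3 → ℕ) (y : Fin 3 → ℕ → ℝ) : Sym2 (TV l) → ℝ :=
  Sym2.lift ⟨ww y, ww_symm y⟩

lemma wy_pt (hl : ∀ i, 2 ≤ l i) (y : Fin 3 → ℕ → ℝ)
    (hy : ∀ i k, k < l i → y i (k + 1) < y i k) {i : Fin 3} {k : ℕ} (h : k < l i) :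
    wy l y s(pt i k, pt i (k + 1)) = y i k - y i (k + 1) := by
  have h2 := hl i
  have key : ww y (pt i k : TV l) (pt i (k + 1)) = |y i k - y i (k + 1)| := by
    rcases Nat.eq_zero_or_pos k with h0 | h0
    · subst h0
      rw [pt_zero, pt_mid i (by omega) (by omega)]
      simp [ww]
    · rcases Nat.eq_or_lt_of_le (Nat.succ_le_of_lt h) with h1 | h1
      · have h1' : k + 1 = l i := h1
        rw [h1', pt_end i (by omega), pt_mid i h0 h]
        simp only [ww]
        rw [show k - 1 + 1 = k by omega, abs_sub_comm]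
      · have h1' : k + 1 < l i := h1
        rw [pt_mid i h0 h, pt_mid i (by omega) h1']
        simp only [ww]
        rw [show k - 1 + 1 = k by omega, show k + 1 - 1 + 1 = k + 1 by omega]
  show ww y (pt i k : TV l) (pt i (k + 1)) = _
  rw [key, abs_of_pos]
  have := hy i k h
  linarith

end ThetaGraph

/-! ## Consistent path systems of a theta graph -/

section Structure

variable {l : Fin 3 → ℕ} (hl : ∀ i, 2 ≤ l i) {P : PathSystem (theta l)} (hP : P.Consistent)
  (y : Fin 3 → ℕ → ℝ) (hy : ∀ i k, k < l i → y i (k + 1) < y i k)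

include hl hP hy

/-- The path from an inner vertex goes up or down; it is direct, or it reaches the end. -/
lemma four {i : Fin 3} {k : ℕ} (hk : 0 < k) (hk' : k < l i) {v : TV l} (hv : v ≠ pt i k) :
    (∃ M, k < M ∧ M ≤ l i ∧ v = pt i M ∧ dd (wy l y) P (pt i k) v = y i k - y i M ∧
      (∀ j, k ≤ j → j ≤ M → On P (pt i j) (pt i k) v) ∧
      ∀ x, On P x (pt i k) v → ∃ j, k ≤ j ∧ j ≤ M ∧ x = pt i j) ∨
    ((∀ M, k < M → M ≤ l i → v ≠ pt i M) ∧
      ∀ j, k ≤ j → j ≤ l i → On P (pt i j) (pt i k) v) ∨
    (∃ M, M < k ∧ v = pt i M ∧ dd (wy l y) P (pt i k) v = y i M - y i k ∧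
      (∀ j, M ≤ j → j ≤ k → On P (pt i j) (pt i k) v) ∧
      ∀ x, On P x (pt i k) v → ∃ j, M ≤ j ∧ j ≤ k ∧ x = pt i j) ∨
    ((∀ M, M < k → v ≠ pt i M) ∧ ∀ j, j ≤ k → On P (pt i j) (pt i k) v) := by
  have h2 := hl i
  obtain ⟨x, h, hx⟩ := first_step (P := P) hP (Ne.symm hv)
  have hpath := P.isPath (pt i k) v
  rw [hx] at hpath
  have hc := (Walk.cons_isPath_iff h _).1 hpath
  have hon : ∀ z, On P z x v → On P z (pt i k) v := by
    intro z hz
    unfold On
    rw [hx, Walk.support_cons, List.mem_cons]
    exact Or.inr hz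
  have hon' : ∀ z, On P z (pt i k) v → z = pt i k ∨ On P z x v := by
    intro z hz
    unfold On at hz
    rw [hx, Walk.support_cons, List.mem_cons] at hz
    exact hz
  have hd : dd (wy l y) P (pt i k) v = wy l y s(pt i k, x) + wt (wy l y) (P.path x v) := by
    unfold dd
    rw [hx, wt_cons]
  rcases nbr hl hk hk' h with hxk | hxk
  · -- down
    right; right
    have hnbr : ∀ n, 0 < n → n < l i → ∀ v, (theta l).Adj (pt i (l i - n)) v →
        v = pt i (l i - (n - 1)) ∨ v = pt i (l i - (n + 1)) := by
      intro n hn hn' v hv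
      rcases nbr hl (by omega) (by omega) hv with h3 | h3
      · right; rw [h3]; congr 1
      · left; rw [h3]; congr 1; omega
    by_cases hM : ∃ M, M < k ∧ v = pt i M
    · left
      obtain ⟨M, hM1, hM2⟩ := hM
      obtain ⟨h3, h4, h5⟩ := runEnd (wy l y) (fun n => pt i (l i - n)) (fun n => y i (l i - n))
        (l i) (fun a b ha hb hab => by
          have := pt_inj' hl (by omega) (by omega) hab
          omega) hnbr (fun n hn => by
          have := wy_pt hl y hy (i := i) (k := l i - (n + 1)) (by omega)
          rw [show l i - (n + 1) + 1 = l i - n by omega] at this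
          show wy l y s(pt i (l i - n), pt i (l i - (n + 1))) = _
          rw [Sym2.eq_swap, this])
        (k - 1 - M) (l i - (k - 1)) (l i - M) x v (P.path x v) hc.1
        (by rw [hxk]; congr 1; omega) (by rw [hM2]; congr 1; omega) (by omega) (by omega)
        (by omega) (by
          have : l i - (l i - (k - 1) - 1) = k := by omega
          simp only [this]
          exact hc.2)
      have e1 : l i - (l i - M) = M := by omega
      have e2 : l i - (l i - (k - 1)) = k - 1 := by omega
      refine ⟨M, hM1, hM2, ?_, fun j hj1 hj2 => ?_, fun z hz => ?_⟩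
      · rw [hd, h3]
        simp only [e1, e2]
        have := wy_pt hl y hy (i := i) (k := k - 1) (by omega)
        rw [show k - 1 + 1 = k by omega] at this
        rw [hxk, Sym2.eq_swap, this]
        ring
      · rcases Nat.eq_or_lt_of_le hj2 with h6 | h6
        · rw [h6]; exact on_start _ _
        · apply hon
          have := h4 (l i - j) (by omega) (by omega)
          simp only [show l i - (l i - j) = j by omega] at this
          exact this
      · rcases hon' z hz with h6 | h6
        · exact ⟨k, by omega, le_rfl, h6⟩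
        · obtain ⟨j, h7, h8, h9⟩ := h5 z h6
          exact ⟨l i - j, by omega, by omega, h9⟩
    · right
      have hM' : ∀ M, M < k → v ≠ pt i M := fun M h3 h4 => hM ⟨M, h3, h4⟩
      refine ⟨hM', fun j hj => ?_⟩
      rcases Nat.eq_or_lt_of_le hj with h6 | h6
      · rw [h6]; exact on_start _ _
      · apply hon
        have := runOut (G := theta l) (fun n => pt i (l i - n)) (l i) hnbr (k - 1)
          (l i - (k - 1)) x v (P.path x v) hc.1 (by rw [hxk]; congr 1; omega) (by omega) (by omega)
          (fun M h7 h8 => hM' _ (by omega)) (by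
            have : l i - (l i - (k - 1) - 1) = k := by omega
            simp only [this]
            exact hc.2) (l i - j) (by omega) (by omega)
        simp only [show l i - (l i - j) = j by omega] at this
        exact this
  · -- up
    have hnbr : ∀ n, 0 < n → n < l i → ∀ v, (theta l).Adj (pt i n) v →
        v = pt i (n - 1) ∨ v = pt i (n + 1) := fun n hn hn' v hv => nbr hl hn hn' hv
    by_cases hM : ∃ M, k < M ∧ M ≤ l i ∧ v = pt i M
    · left
      obtain ⟨M, hM1, hM3, hM2⟩ := hM
      obtain ⟨h3, h4, h5⟩ := runEnd (wy l y) (fun n => pt i n) (fun n => - y i n)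
        (l i) (fun a b ha hb hab => pt_inj' hl ha hb hab) hnbr (fun n hn => by
          show wy l y s(pt i n, pt i (n + 1)) = _
          rw [wy_pt hl y hy hn]
          ring)
        (M - (k + 1)) (k + 1) M x v (P.path x v) hc.1 hxk hM2 (by omega) (by omega) hM3
        (by simpa using hc.2)
      refine ⟨M, hM1, hM3, hM2, ?_, fun j hj1 hj2 => ?_, fun z hz => ?_⟩
      · rw [hd, h3, hxk, wy_pt hl y hy hk']
        ring
      · rcases Nat.eq_or_lt_of_le hj1 with h6 | h6
        · rw [← h6]; exact on_start _ _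
        · exact hon _ (h4 j h6 hj2)
      · rcases hon' z hz with h6 | h6
        · exact ⟨k, le_rfl, by omega, h6⟩
        · obtain ⟨j, h7, h8, h9⟩ := h5 z h6
          exact ⟨j, by omega, h8, h9⟩
    · right; left
      have hM' : ∀ M, k < M → M ≤ l i → v ≠ pt i M := fun M h3 h5 h4 => hM ⟨M, h3, h5, h4⟩
      refine ⟨hM', fun j hj hj2 => ?_⟩
      rcases Nat.eq_or_lt_of_le hj with h6 | h6
      · rw [← h6]; exact on_start _ _
      · apply hon
        exact runOut (G := theta l) (fun n => pt i n) (l i) hnbr (l i - (k + 1))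
          (k + 1) x v (P.path x v) hc.1 hxk (by omega) (by omega)
          (fun M h7 h8 => hM' _ (by omega) (by omega)) (by simpa using hc.2) j h6 hj2

omit hl y hy in
lemma not_both {u : TV l} (h1 : On P TV.s u TV.t) (h2 : On P TV.t u TV.s) : False := by
  have := h1.meet hP h2 (on_end _ _)
  cases this

lemma direct_s {i : Fin 3} {k : ℕ} (hk : 0 < k) (hk' : k < l i)
    (h : ¬ On P TV.t (pt i k) TV.s) :
    dd (wy l y) P (pt i k) TV.s = y i 0 - y i k ∧ ∀ j, j ≤ k → On P (pt i j) (pt i k) TV.s := by
  have h2 := hl i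
  have e0 : (TV.s : TV l) = pt i 0 := (pt_zero i).symm
  have hne : (TV.s : TV l) ≠ pt i k := by
    rw [e0]
    intro h3
    have := pt_inj' hl (by omega) (by omega) h3
    omega
  rcases four hl hP y hy hk hk' hne with h3 | h3 | h3 | h3
  · obtain ⟨M, h4, h5, h6, -⟩ := h3
    rw [e0] at h6
    have := pt_inj' hl (by omega) h5 h6
    omega
  · exfalso
    apply h
    have := h3.2 (l i) (by omega) le_rfl
    rwa [pt_end i (by omega)] at this
  · obtain ⟨M, h4, h5, h6, h7, h8⟩ := h3
    have hM : M = 0 := by
      rw [e0] at h5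
      exact (pt_inj' hl (by omega) (by omega) h5).symm
    subst hM
    exact ⟨h6, fun j hj => h7 j (by omega) hj⟩
  · exact absurd e0 (h3.1 0 hk)

lemma direct_t {i : Fin 3} {k : ℕ} (hk : 0 < k) (hk' : k < l i)
    (h : ¬ On P TV.s (pt i k) TV.t) :
    dd (wy l y) P (pt i k) TV.t = y i k - y i (l i) ∧
      ∀ j, k ≤ j → j ≤ l i → On P (pt i j) (pt i k) TV.t := by
  have h2 := hl i
  have e0 : (TV.t : TV l) = pt i (l i) := (pt_end i (by omega)).symm
  have hne : (TV.t : TV l) ≠ pt i k := by
    rw [e0]
    intro h3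
    have := pt_inj' hl (by omega) (by omega) h3
    omega
  rcases four hl hP y hy hk hk' hne with h3 | h3 | h3 | h3
  · obtain ⟨M, h4, h5, h6, h7, h8, h9⟩ := h3
    have hM : M = l i := by
      rw [e0] at h6
      exact (pt_inj' hl (by omega) (by omega) h6).symm
    subst hM
    exact ⟨h7, h8⟩
  · exact absurd e0 (h3.1 (l i) (by omega) le_rfl)
  · obtain ⟨M, h4, h5, -⟩ := h3
    rw [e0] at h5
    have := pt_inj' hl (by omega) (by omega) h5
    omega
  · exfalso
    apply h
    have := h3.2 0 (by omega)
    rwa [pt_zero] at this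

/-- From an inner vertex to a vertex off its branch the path passes through `s` or `t`. -/
lemma off_branch {i : Fin 3} {k : ℕ} (hk : 0 < k) (hk' : k < l i) {v : TV l}
    (hv : ∀ M, M ≤ l i → v ≠ pt i M) : On P TV.s (pt i k) v ∨ On P TV.t (pt i k) v := by
  have h2 := hl i
  rcases four hl hP y hy hk hk' (hv k (by omega)) with h3 | h3 | h3 | h3
  · obtain ⟨M, h4, h5, h6, -⟩ := h3
    exact absurd h6 (hv M h5)
  · right
    have := h3.2 (l i) (by omega) le_rfl
    rwa [pt_end i (by omega)] at this
  · obtain ⟨M, h4, h5, -⟩ := h3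
    exact absurd h5 (hv M (by omega))
  · left
    have := h3.2 0 (by omega)
    rwa [pt_zero] at this

/-- Two inner vertices of one branch. -/
lemma same_branch {i : Fin 3} {k m : ℕ} (hk : 0 < k) (hkm : k < m) (hm : m < l i) :
    (dd (wy l y) P (pt i k) (pt i m) = y i k - y i m ∧ ¬ On P TV.s (pt i k) (pt i m) ∧
      ¬ On P TV.t (pt i k) (pt i m)) ∨ On P TV.s (pt i k) (pt i m) := by
  have h2 := hl i
  have hne : (pt i m : TV l) ≠ pt i k := by
    intro h3
    have := pt_inj' hl (by omega) (by omega) h3
    omega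
  rcases four hl hP y hy hk (by omega) hne with h3 | h3 | h3 | h3
  · left
    obtain ⟨M, h4, h5, h6, h7, h8, h9⟩ := h3
    have hM := pt_inj' hl (by omega) h5 h6
    subst hM
    refine ⟨h7, fun h => ?_, fun h => ?_⟩
    · obtain ⟨j, h10, h11, h12⟩ := h9 _ h
      rw [← pt_zero i] at h12
      have := pt_inj' hl (by omega) (by omega) h12
      omega
    · obtain ⟨j, h10, h11, h12⟩ := h9 _ h
      rw [← pt_end i (by omega)] at h12
      have := pt_inj' hl (by omega) (by omega) h12
      omega
  · exact absurd rfl (h3.1 m hkm (by omega))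
  · obtain ⟨M, h4, h5, -⟩ := h3
    have := pt_inj' hl (by omega) (by omega) h5
    omega
  · right
    have := h3.2 0 (by omega)
    rwa [pt_zero] at this

lemma typeA_mono {i : Fin 3} {k k' : ℕ} (hk' : 0 < k') (hkk : k' ≤ k) (hk : k < l i)
    (h : On P TV.s (pt i k) TV.t) : On P TV.s (pt i k') TV.t := by
  have h1 := (direct_s hl hP y hy (by omega) hk (fun h2 => not_both hP h h2)).2 k' hkk
  exact h.after hP h1

lemma typeB_mono {i : Fin 3} {k k' : ℕ} (hk : 0 < k) (hkk : k ≤ k') (hk' : k' < l i)
    (h : On P TV.t (pt i k) TV.s) : On P TV.t (pt i k') TV.s := by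
  have h1 := (direct_t hl hP y hy hk (by omega) (fun h2 => not_both hP h2 h)).2 k' hkk
    (by omega)
  exact h.after hP h1

/-- If the path between two vertices of one branch goes around, it passes through `s` and then
through `t`. -/
lemma around_types {i : Fin 3} {k m : ℕ} (hk : 0 < k) (hkm : k < m) (hm : m < l i)
    (h : On P TV.s (pt i k) (pt i m)) :
    On P TV.t (pt i m) TV.s ∧ On P TV.s (pt i k) TV.t := by
  have h1 : On P TV.t (pt i m) TV.s := by
    by_contra h2
    have h3 := (direct_s hl hP y hy (by omega) hm h2).2 k (by omega)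
    have h4 := h.antisymm hP h3.symm
    rw [← pt_zero i] at h4
    have := pt_inj' hl (by omega) (by omega) h4
    omega
  exact ⟨h1, (h.symm.after hP h1).symm⟩

lemma around_mono {i : Fin 3} {k m k' m' : ℕ} (hk' : 0 < k') (hkk : k' ≤ k) (hkm : k < m)
    (hmm : m ≤ m') (hm' : m' < l i) (h : On P TV.s (pt i k) (pt i m)) :
    On P TV.s (pt i k') (pt i m') := by
  obtain ⟨h1, h2⟩ := around_types hl hP y hy (by omega) hkm (by omega) h
  -- move `k`
  have h3 := (direct_s hl hP y hy (by omega) (by omega) (fun h3 => not_both hP h2 h3)).2 k' hkk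
  have h4 : On P TV.s (pt i k') (pt i m) := h.after hP h3
  -- move `m`
  have h5 : On P TV.t (pt i m) (pt i k') := by
    obtain ⟨h5, -⟩ := around_types hl hP y hy hk' (by omega) (by omega) h4
    exact h4.symm.left hP h5
  have h6 := (direct_t hl hP y hy (by omega) (by omega) (fun h3 => not_both hP h3 h1)).2 m' hmm
    (by omega)
  have h7 : On P TV.t (pt i m') (pt i k') := h5.after hP h6
  obtain ⟨-, h8⟩ := around_types hl hP y hy hk' (by omega) (by omega) h4
  exact h7.symm.left hP h8

lemma around_dd {i : Fin 3} {k m : ℕ} (hk : 0 < k) (hkm : k < m) (hm : m < l i)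
    (h : On P TV.s (pt i k) (pt i m)) :
    dd (wy l y) P (pt i k) (pt i m) =
      (y i 0 - y i k) + dd (wy l y) P TV.s TV.t + (y i m - y i (l i)) := by
  obtain ⟨h1, h2⟩ := around_types hl hP y hy hk hkm hm h
  have e1 := (direct_s hl hP y hy hk (by omega) (fun h3 => not_both hP h2 h3)).1
  have e2 := (direct_t hl hP y hy (by omega) hm (fun h3 => not_both hP h3 h1)).1
  rw [h.dd hP, e1, dd_symm _ TV.s, h1.dd hP, e2, dd_symm _ TV.t TV.s]
  ring

lemma cross_mono {i j : Fin 3} {k k' m m' : ℕ} (hk' : 0 < k') (hkk : k' ≤ k) (hk : k < l i)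
    (hm' : 0 < m') (hmm : m' ≤ m) (hm : m < l j)
    (hB : ¬ On P TV.t (pt i k) TV.s) (hB' : ¬ On P TV.t (pt j m) TV.s)
    (h : On P TV.s (pt i k) (pt j m)) : On P TV.s (pt i k') (pt j m') := by
  have h1 := (direct_s hl hP y hy (by omega) hk hB).2 k' hkk
  have h2 : On P TV.s (pt i k') (pt j m) := h.after hP h1
  have h3 := (direct_s hl hP y hy (by omega) hm hB').2 m' hmm
  exact (h2.symm.after hP h3).symm

end Structure

/-- The path from `s` to `t` is one of the three branches. -/
lemma main_branch {l : Fin 3 → ℕ} (hl : ∀ i, 2 ≤ l i) {P : PathSystem (theta l)}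
    (hP : P.Consistent) :
    ∃ X : Fin 3, (∀ j, j ≤ l X → On P (pt X j) TV.s TV.t) ∧
      ∀ y : Fin 3 → ℕ → ℝ, (∀ i k, k < l i → y i (k + 1) < y i k) →
        dd (wy l y) P TV.s TV.t = y X 0 - y X (l X) := by
  obtain ⟨x, h, hx⟩ := first_step (P := P) hP (u := TV.s) (v := TV.t) (by intro h; cases h)
  obtain ⟨X, hX⟩ := nbr_s hl h
  have h2 := hl X
  have hpath := P.isPath TV.s TV.t
  rw [hx] at hpath
  have hc := (Walk.cons_isPath_iff h _).1 hpath
  have hnbr : ∀ n, 0 < n → n < l X → ∀ v, (theta l).Adj (pt X n) v →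
      v = pt X (n - 1) ∨ v = pt X (n + 1) := fun n hn hn' v hv => nbr hl hn hn' hv
  have key : ∀ y : Fin 3 → ℕ → ℝ, (∀ i k, k < l i → y i (k + 1) < y i k) → _ := fun y hy =>
    runEnd (wy l y) (fun n => pt X n) (fun n => - y X n)
    (l X) (fun a b ha hb hab => pt_inj' hl ha hb hab) hnbr (fun n hn => by
      show wy l y s(pt X n, pt X (n + 1)) = _
      rw [wy_pt hl y hy hn]
      ring)
    (l X - 1) 1 (l X) x TV.t (P.path x TV.t) hc.1 hX (pt_end X (by omega)).symm (by omega)
    (by omega) le_rfl (by
      show pt X (1 - 1) ∉ _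
      rw [show 1 - 1 = 0 by rfl, pt_zero]
      exact hc.2)
  refine ⟨X, fun j hj => ?_, fun y hy => ?_⟩
  · rcases Nat.eq_zero_or_pos j with h6 | h6
    · rw [h6, pt_zero]; exact on_start _ _
    · unfold On
      rw [hx, Walk.support_cons, List.mem_cons]
      exact Or.inr ((key (fun _ k => - (k : ℝ)) (fun i k _ => by push_cast; linarith)).2.1 j h6 hj)
  · have e := wy_pt hl y hy (i := X) (k := 0) (by omega)
    rw [pt_zero] at e
    unfold dd
    rw [hx, wt_cons, (key y hy).1, hX, e]
    ring

/-! ## The numerical criterion -/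

section Criterion

variable {l : Fin 3 → ℕ} (hl : ∀ i, 2 ≤ l i) {P : PathSystem (theta l)} (hP : P.Consistent)
  (y : Fin 3 → ℕ → ℝ) (hy : ∀ i k, k < l i → y i (k + 1) < y i k)
  (L : ℝ) (hL : 0 < L) (hst : dd (wy l y) P TV.s TV.t = 2 * L)
  (hsym : ∀ i, y i (l i) = - y i 0) (hM : ∀ i, L ≤ y i 0)
  (hA : ∀ i k, 0 < k → k < l i → On P TV.s (pt i k) TV.t → L ≤ y i k)
  (hA' : ∀ i k, 0 < k → k < l i → ¬ On P TV.s (pt i k) TV.t → y i k ≤ L)
  (hB : ∀ i k, 0 < k → k < l i → On P TV.t (pt i k) TV.s → y i k ≤ - L)
  (hB' : ∀ i k, 0 < k → k < l i → ¬ On P TV.t (pt i k) TV.s → - L ≤ y i k)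
  (hC : ∀ i k m, 0 < k → k < m → m < l i → On P TV.s (pt i k) (pt i m) →
    y i 0 + L ≤ y i k - y i m)
  (hC' : ∀ i k m, 0 < k → k < m → m < l i → ¬ On P TV.s (pt i k) (pt i m) →
    y i k - y i m ≤ y i 0 + L)
  (hD : ∀ i j k m, i ≠ j → 0 < k → k < l i → 0 < m → m < l j →
    ¬ On P TV.s (pt i k) TV.t → ¬ On P TV.t (pt i k) TV.s →
    ¬ On P TV.s (pt j m) TV.t → ¬ On P TV.t (pt j m) TV.s →
    On P TV.s (pt i k) (pt j m) → 0 ≤ y i k + y j m)
  (hD' : ∀ i j k m, i ≠ j → 0 < k → k < l i → 0 < m → m < l j →
    ¬ On P TV.s (pt i k) TV.t → ¬ On P TV.t (pt i k) TV.s →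
    ¬ On P TV.s (pt j m) TV.t → ¬ On P TV.t (pt j m) TV.s →
    ¬ On P TV.s (pt i k) (pt j m) → y i k + y j m ≤ 0)

include hl hy in
lemma y_anti {i : Fin 3} {a b : ℕ} (hab : a ≤ b) (hb : b ≤ l i) : y i b ≤ y i a := by
  induction b, hab using Nat.le_induction with
  | base => exact le_rfl
  | succ n hn ih =>
    have := hy i n (by omega)
    have := ih (by omega)
    linarith

include hl hP hy hL hst hsym hM hA hA' hB hB'

lemma dist_s {i : Fin 3} {k : ℕ} (hk : k ≤ l i) :
    dd (wy l y) P (pt i k) TV.s = min (y i 0 - y i k) (2 * L + y i 0 + y i k) := by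
  have h2 := hl i
  have hMi := hM i
  rcases Nat.eq_zero_or_pos k with h0 | h0
  · subst h0
    rw [pt_zero, dd_self, min_eq_left (by linarith)]
    ring
  rcases Nat.eq_or_lt_of_le hk with h1 | h1
  · subst h1
    rw [pt_end i h0, dd_symm, hst, hsym, min_eq_right (by linarith)]
    ring
  by_cases hb : On P TV.t (pt i k) TV.s
  · have ha : ¬ On P TV.s (pt i k) TV.t := fun h => not_both hP h hb
    rw [hb.dd hP, (direct_t hl hP y hy h0 h1 ha).1, dd_symm, hst, hsym]
    have := hB i k h0 h1 hb
    rw [min_eq_right (by linarith)]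
    ring
  · rw [(direct_s hl hP y hy h0 h1 hb).1]
    have := hB' i k h0 h1 hb
    rw [min_eq_left (by linarith)]

lemma dist_t {i : Fin 3} {k : ℕ} (hk : k ≤ l i) :
    dd (wy l y) P (pt i k) TV.t = min (y i 0 + y i k) (2 * L + y i 0 - y i k) := by
  have h2 := hl i
  have hMi := hM i
  rcases Nat.eq_zero_or_pos k with h0 | h0
  · subst h0
    rw [pt_zero, hst, min_eq_right (by linarith)]
    ring
  rcases Nat.eq_or_lt_of_le hk with h1 | h1
  · subst h1
    rw [pt_end i h0, dd_self, hsym, min_eq_left (by linarith)]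
    ring
  by_cases ha : On P TV.s (pt i k) TV.t
  · have hb : ¬ On P TV.t (pt i k) TV.s := fun h => not_both hP ha h
    rw [ha.dd hP, (direct_s hl hP y hy h0 h1 hb).1, hst]
    have := hA i k h0 h1 ha
    rw [min_eq_right (by linarith)]
    ring
  · rw [(direct_t hl hP y hy h0 h1 ha).1, hsym]
    have := hA' i k h0 h1 ha
    rw [min_eq_left (by linarith)]
    ring

include hC hC' hD hD'

lemma tri_s (u v : TV l) :
    dd (wy l y) P u v ≤ dd (wy l y) P u TV.s + dd (wy l y) P TV.s v := by
  by_cases hs : On P TV.s u v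
  · exact (hs.dd hP _).le
  have ds := fun {i k} (hk : k ≤ l i) =>
    dist_s hl hP y hy L hL hst hsym hM hA hA' hB hB' (i := i) (k := k) hk
  have dt := fun {i k} (hk : k ≤ l i) =>
    dist_t hl hP y hy L hL hst hsym hM hA hA' hB hB' (i := i) (k := k) hk
  rcases vertex_cases u with rfl | rfl | ⟨i, k, hk0, hk, rfl⟩
  · exact absurd (on_start _ _) hs
  · rcases vertex_cases v with rfl | rfl | ⟨j, m, hm0, hm, rfl⟩
    · exact absurd (on_end _ _) hs
    · rw [dd_self, dd_symm _ TV.t TV.s, hst]
      linarith
    · rw [dd_symm _ TV.t, dd_symm _ TV.t TV.s, dd_symm _ TV.s (pt j m), hst, ds hm.le, dt hm.le]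
      rcases min_cases (y j 0 - y j m) (2 * L + y j 0 + y j m) with h | h <;>
      rcases min_cases (y j 0 + y j m) (2 * L + y j 0 - y j m) with h' | h' <;>
      linarith [h.1, h.2, h'.1, h'.2]
  · rcases vertex_cases v with rfl | rfl | ⟨j, m, hm0, hm, rfl⟩
    · exact absurd (on_end _ _) hs
    · rw [hst, ds hk.le, dt hk.le]
      rcases min_cases (y i 0 - y i k) (2 * L + y i 0 + y i k) with h | h <;>
      rcases min_cases (y i 0 + y i k) (2 * L + y i 0 - y i k) with h' | h' <;>
      linarith [h.1, h.2, h'.1, h'.2]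
    · rw [dd_symm _ TV.s (pt j m), ds hk.le, ds hm.le]
      have hi0 := y_anti hl y hy (i := i) (a := 0) (b := k) (by omega) hk.le
      have hi1 := y_anti hl y hy (i := i) (a := k) (b := l i) hk.le le_rfl
      have hj0 := y_anti hl y hy (i := j) (a := 0) (b := m) (by omega) hm.le
      have hj1 := y_anti hl y hy (i := j) (a := m) (b := l j) hm.le le_rfl
      rw [hsym] at hi1 hj1
      have hMi := hM i
      have hMj := hM j
      by_cases hij : i = j
      · subst hij
        rcases lt_trichotomy k m with hkm | hkm | hkm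
        · rcases same_branch hl hP y hy hk0 hkm hm with h | h
          · rw [h.1]
            have := hC' i k m hk0 hkm hm hs
            rcases min_cases (y i 0 - y i k) (2 * L + y i 0 + y i k) with h | h <;>
            rcases min_cases (y i 0 - y i m) (2 * L + y i 0 + y i m) with h' | h' <;>
            linarith [h.1, h.2, h'.1, h'.2]
          · exact absurd h hs
        · subst hkm
          rw [dd_self]
          rcases min_cases (y i 0 - y i k) (2 * L + y i 0 + y i k) with h | h <;>
          linarith [h.1, h.2]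
        · have hs' : ¬ On P TV.s (pt i m) (pt i k) := fun h => hs h.symm
          rw [dd_symm]
          rcases same_branch hl hP y hy hm0 hkm hk with h | h
          · rw [h.1]
            have := hC' i m k hm0 hkm hk hs'
            rcases min_cases (y i 0 - y i k) (2 * L + y i 0 + y i k) with h | h <;>
            rcases min_cases (y i 0 - y i m) (2 * L + y i 0 + y i m) with h' | h' <;>
            linarith [h.1, h.2, h'.1, h'.2]
          · exact absurd h hs'
      · -- different branches
        have ht : On P TV.t (pt i k) (pt j m) := by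
          rcases off_branch hl hP y hy hk0 hk (v := pt j m) (fun M hM' h => by
            exact hij (pt_inj hm0 hm hM' h).1.symm) with h | h
          · exact absurd h hs
          · exact h
        have ha : ¬ On P TV.s (pt i k) TV.t := fun h => hs (ht.left hP h)
        have ha' : ¬ On P TV.s (pt j m) TV.t := fun h => hs (ht.right hP h.symm)
        rw [ht.dd hP, dd_symm _ TV.t (pt j m), (direct_t hl hP y hy hk0 hk ha).1,
          (direct_t hl hP y hy hm0 hm ha').1, hsym, hsym]
        have e1 := hA' i k hk0 hk ha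
        have e2 := hA' j m hm0 hm ha'
        by_cases hb : On P TV.t (pt i k) TV.s
        · have e3 := hB i k hk0 hk hb
          rcases min_cases (y i 0 - y i k) (2 * L + y i 0 + y i k) with h | h <;>
          rcases min_cases (y j 0 - y j m) (2 * L + y j 0 + y j m) with h' | h' <;>
          linarith [h.1, h.2, h'.1, h'.2]
        · by_cases hb' : On P TV.t (pt j m) TV.s
          · have e3 := hB j m hm0 hm hb'
            rcases min_cases (y i 0 - y i k) (2 * L + y i 0 + y i k) with h | h <;>
            rcases min_cases (y j 0 - y j m) (2 * L + y j 0 + y j m) with h' | h' <;>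
            linarith [h.1, h.2, h'.1, h'.2]
          · have e3 := hD' i j k m hij hk0 hk hm0 hm ha hb ha' hb' hs
            have e4 := hB' i k hk0 hk hb
            have e5 := hB' j m hm0 hm hb'
            rcases min_cases (y i 0 - y i k) (2 * L + y i 0 + y i k) with h | h <;>
            rcases min_cases (y j 0 - y j m) (2 * L + y j 0 + y j m) with h' | h' <;>
            linarith [h.1, h.2, h'.1, h'.2]

lemma tri_t (u v : TV l) :
    dd (wy l y) P u v ≤ dd (wy l y) P u TV.t + dd (wy l y) P TV.t v := by
  by_cases ht : On P TV.t u v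
  · exact (ht.dd hP _).le
  have ds := fun {i k} (hk : k ≤ l i) =>
    dist_s hl hP y hy L hL hst hsym hM hA hA' hB hB' (i := i) (k := k) hk
  have dt := fun {i k} (hk : k ≤ l i) =>
    dist_t hl hP y hy L hL hst hsym hM hA hA' hB hB' (i := i) (k := k) hk
  rcases vertex_cases u with rfl | rfl | ⟨i, k, hk0, hk, rfl⟩
  · rcases vertex_cases v with rfl | rfl | ⟨j, m, hm0, hm, rfl⟩
    · rw [dd_self, dd_symm _ TV.t TV.s, hst]
      linarith
    · exact absurd (on_end _ _) ht
    · rw [dd_symm _ TV.t, dd_symm _ TV.s (pt j m), hst, ds hm.le, dt hm.le]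
      rcases min_cases (y j 0 - y j m) (2 * L + y j 0 + y j m) with h | h <;>
      rcases min_cases (y j 0 + y j m) (2 * L + y j 0 - y j m) with h' | h' <;>
      linarith [h.1, h.2, h'.1, h'.2]
  · exact absurd (on_start _ _) ht
  · rcases vertex_cases v with rfl | rfl | ⟨j, m, hm0, hm, rfl⟩
    · rw [dd_symm _ TV.t TV.s, hst, ds hk.le, dt hk.le]
      rcases min_cases (y i 0 - y i k) (2 * L + y i 0 + y i k) with h | h <;>
      rcases min_cases (y i 0 + y i k) (2 * L + y i 0 - y i k) with h' | h' <;>
      linarith [h.1, h.2, h'.1, h'.2]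
    · exact absurd (on_end _ _) ht
    · rw [dd_symm _ TV.t (pt j m), dt hk.le, dt hm.le]
      have hi0 := y_anti hl y hy (i := i) (a := 0) (b := k) (by omega) hk.le
      have hi1 := y_anti hl y hy (i := i) (a := k) (b := l i) hk.le le_rfl
      have hj0 := y_anti hl y hy (i := j) (a := 0) (b := m) (by omega) hm.le
      have hj1 := y_anti hl y hy (i := j) (a := m) (b := l j) hm.le le_rfl
      rw [hsym] at hi1 hj1
      have hMi := hM i
      have hMj := hM j
      by_cases hij : i = j
      · subst hij
        have aux : ∀ k m, 0 < k → k < m → m < l i → ¬ On P TV.t (pt i k) (pt i m) →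
            ¬ On P TV.s (pt i k) (pt i m) := fun k m h1 h2 h3 h4 h5 => by
          obtain ⟨h6, h7⟩ := around_types hl hP y hy h1 h2 h3 h5
          exact h4 ((h5.symm.left hP h6).symm)
        rcases lt_trichotomy k m with hkm | hkm | hkm
        · have hs := aux k m hk0 hkm hm ht
          rcases same_branch hl hP y hy hk0 hkm hm with h | h
          · rw [h.1]
            have := hC' i k m hk0 hkm hm hs
            rcases min_cases (y i 0 + y i k) (2 * L + y i 0 - y i k) with h | h <;>
            rcases min_cases (y i 0 + y i m) (2 * L + y i 0 - y i m) with h' | h' <;>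
            linarith [h.1, h.2, h'.1, h'.2]
          · exact absurd h hs
        · subst hkm
          rw [dd_self]
          rcases min_cases (y i 0 + y i k) (2 * L + y i 0 - y i k) with h | h <;>
          linarith [h.1, h.2]
        · have hs := aux m k hm0 hkm hk (fun h => ht h.symm)
          rw [dd_symm]
          rcases same_branch hl hP y hy hm0 hkm hk with h | h
          · rw [h.1]
            have := hC' i m k hm0 hkm hk hs
            rcases min_cases (y i 0 + y i k) (2 * L + y i 0 - y i k) with h | h <;>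
            rcases min_cases (y i 0 + y i m) (2 * L + y i 0 - y i m) with h' | h' <;>
            linarith [h.1, h.2, h'.1, h'.2]
          · exact absurd h hs
      · -- different branches
        have hs : On P TV.s (pt i k) (pt j m) := by
          rcases off_branch hl hP y hy hk0 hk (v := pt j m) (fun M hM' h => by
            exact hij (pt_inj hm0 hm hM' h).1.symm) with h | h
          · exact h
          · exact absurd h ht
        have hb : ¬ On P TV.t (pt i k) TV.s := fun h => ht (hs.left hP h)
        have hb' : ¬ On P TV.t (pt j m) TV.s := fun h => ht (hs.right hP h.symm)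
        rw [hs.dd hP, dd_symm _ TV.s (pt j m), (direct_s hl hP y hy hk0 hk hb).1,
          (direct_s hl hP y hy hm0 hm hb').1]
        have e1 := hB' i k hk0 hk hb
        have e2 := hB' j m hm0 hm hb'
        by_cases ha : On P TV.s (pt i k) TV.t
        · have e3 := hA i k hk0 hk ha
          rcases min_cases (y i 0 + y i k) (2 * L + y i 0 - y i k) with h | h <;>
          rcases min_cases (y j 0 + y j m) (2 * L + y j 0 - y j m) with h' | h' <;>
          linarith [h.1, h.2, h'.1, h'.2]
        · by_cases ha' : On P TV.s (pt j m) TV.t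
          · have e3 := hA j m hm0 hm ha'
            rcases min_cases (y i 0 + y i k) (2 * L + y i 0 - y i k) with h | h <;>
            rcases min_cases (y j 0 + y j m) (2 * L + y j 0 - y j m) with h' | h' <;>
            linarith [h.1, h.2, h'.1, h'.2]
          · have e3 := hD i j k m hij hk0 hk hm0 hm ha hb ha' hb' hs
            have e4 := hA' i k hk0 hk ha
            have e5 := hA' j m hm0 hm ha'
            rcases min_cases (y i 0 + y i k) (2 * L + y i 0 - y i k) with h | h <;>
            rcases min_cases (y j 0 + y j m) (2 * L + y j 0 - y j m) with h' | h' <;>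
            linarith [h.1, h.2, h'.1, h'.2]

lemma base_same_aux {i : Fin 3} {k m : ℕ} (hkm : k ≤ m) (hm : m ≤ l i) :
    dd (wy l y) P (pt i k) (pt i m) ≤ y i k - y i m := by
  have h2 := hl i
  have ds := fun {i k} (hk : k ≤ l i) =>
    dist_s hl hP y hy L hL hst hsym hM hA hA' hB hB' (i := i) (k := k) hk
  have dt := fun {i k} (hk : k ≤ l i) =>
    dist_t hl hP y hy L hL hst hsym hM hA hA' hB hB' (i := i) (k := k) hk
  rcases Nat.eq_or_lt_of_le hkm with h | hkm'
  · subst h
    rw [dd_self]
    linarith
  rcases Nat.eq_zero_or_pos k with h0 | h0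
  · subst h0
    rw [dd_symm, pt_zero, ds hm]
    exact min_le_left _ _
  rcases Nat.eq_or_lt_of_le hm with h1 | h1
  · subst h1
    rw [pt_end i (by omega), dt (by omega), hsym]
    refine (min_le_left _ _).trans ?_
    linarith
  by_cases hs : On P TV.s (pt i k) (pt i m)
  · rw [around_dd hl hP y hy h0 hkm' h1 hs, hst, hsym]
    have := hC i k m h0 hkm' h1 hs
    linarith
  · rcases same_branch hl hP y hy h0 hkm' h1 with h | h
    · exact h.1.le
    · exact absurd h hs

lemma base_same {i : Fin 3} {k m : ℕ} (hk : k ≤ l i) (hm : m ≤ l i) :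
    dd (wy l y) P (pt i k) (pt i m) ≤ |y i k - y i m| := by
  rcases le_total k m with h | h
  · exact (base_same_aux hl hP y hy L hL hst hsym hM hA hA' hB hB' hC hC' hD hD' h hm).trans
      (le_abs_self _)
  · rw [dd_symm, abs_sub_comm]
    exact (base_same_aux hl hP y hy L hL hst hsym hM hA hA' hB hB' hC hC' hD hD' h hk).trans
      (le_abs_self _)

lemma classify (u v : TV l) : On P TV.s u v ∨ On P TV.t u v ∨
    ∃ i k m, 0 < k ∧ k < l i ∧ 0 < m ∧ m < l i ∧ u = pt i k ∧ v = pt i m ∧
      dd (wy l y) P u v = |y i k - y i m| := by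
  rcases vertex_cases u with rfl | rfl | ⟨i, k, hk0, hk, rfl⟩
  · left; exact on_start _ _
  · right; left; exact on_start _ _
  · rcases vertex_cases v with rfl | rfl | ⟨j, m, hm0, hm, rfl⟩
    · left; exact on_end _ _
    · right; left; exact on_end _ _
    · by_cases hij : i = j
      · subst hij
        rcases lt_trichotomy k m with hkm | hkm | hkm
        · rcases same_branch hl hP y hy hk0 hkm hm with h | h
          · right; right
            refine ⟨i, k, m, hk0, hk, hm0, hm, rfl, rfl, ?_⟩
            rw [h.1, abs_of_nonneg]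
            have := y_anti hl y hy hkm.le hm.le
            linarith
          · left; exact h
        · subst hkm
          right; right
          refine ⟨i, k, k, hk0, hk, hm0, hm, rfl, rfl, ?_⟩
          rw [dd_self]
          simp
        · rcases same_branch hl hP y hy hm0 hkm hk with h | h
          · right; right
            refine ⟨i, k, m, hk0, hk, hm0, hm, rfl, rfl, ?_⟩
            rw [dd_symm, h.1, abs_sub_comm, abs_of_nonneg]
            have := y_anti hl y hy hkm.le hk.le
            linarith
          · left; exact h.symm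
      · rcases off_branch hl hP y hy hk0 hk (v := pt j m) (fun M hM' h => by
            exact hij (pt_inj hm0 hm hM' h).1.symm) with h | h
        · left; exact h
        · right; left; exact h

/-- The distance to a fixed vertex changes along an edge by at most its weight. -/
lemma lipschitz {i : Fin 3} {a b : ℕ} (ha : a ≤ l i) (hb : b ≤ l i) (v : TV l) :
    dd (wy l y) P (pt i a) v ≤ |y i a - y i b| + dd (wy l y) P (pt i b) v := by
  have h2 := hl i
  have ds := fun {i k} (hk : k ≤ l i) =>
    dist_s hl hP y hy L hL hst hsym hM hA hA' hB hB' (i := i) (k := k) hk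
  have dt := fun {i k} (hk : k ≤ l i) =>
    dist_t hl hP y hy L hL hst hsym hM hA hA' hB hB' (i := i) (k := k) hk
  have ab1 := le_abs_self (y i a - y i b)
  have ab2 := neg_abs_le (y i a - y i b)
  rcases classify hl hP y hy L hL hst hsym hM hA hA' hB hB' hC hC' hD hD' (pt i b) v with
    h | h | ⟨i', k, m, hk0, hk, hm0, hm, e1, e2, e3⟩
  · have h1 := tri_s hl hP y hy L hL hst hsym hM hA hA' hB hB' hC hC' hD hD' (pt i a) v
    rw [h.dd hP]
    have h3 := ds ha
    have h4 := ds hb
    rcases min_cases (y i 0 - y i a) (2 * L + y i 0 + y i a) with h | h <;>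
    rcases min_cases (y i 0 - y i b) (2 * L + y i 0 + y i b) with h' | h' <;>
    linarith [h.1, h.2, h'.1, h'.2]
  · have h1 := tri_t hl hP y hy L hL hst hsym hM hA hA' hB hB' hC hC' hD hD' (pt i a) v
    rw [h.dd hP]
    have h3 := dt ha
    have h4 := dt hb
    rcases min_cases (y i 0 + y i a) (2 * L + y i 0 - y i a) with h | h <;>
    rcases min_cases (y i 0 + y i b) (2 * L + y i 0 - y i b) with h' | h' <;>
    linarith [h.1, h.2, h'.1, h'.2]
  · obtain ⟨e4, e5⟩ := pt_inj hk0 hk hb e1.symm
    subst e4
    subst e5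
    rw [e3]
    subst e2
    refine (base_same hl hP y hy L hL hst hsym hM hA hA' hB hB' hC hC' hD hD' ha hm.le).trans ?_
    exact abs_sub_le _ _ _

lemma metrizable_of : P.IsMetrizable := by
  have adjw : ∀ u x : TV l, (theta l).Adj u x → ∃ i a b, a ≤ l i ∧ b ≤ l i ∧ u = pt i a ∧
      x = pt i b ∧ wy l y s(u, x) = |y i a - y i b| ∧ 0 < wy l y s(u, x) := by
    intro u x h
    rw [adj_iff] at h
    obtain ⟨-, ⟨i, k, hk, h1, h2⟩ | ⟨i, k, hk, h1, h2⟩⟩ := h
    · have h3 := hy i k hk
      refine ⟨i, k, k + 1, by omega, by omega, h1, h2, ?_, ?_⟩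
      · rw [h1, h2, wy_pt hl y hy hk, abs_of_pos (by linarith)]
      · rw [h1, h2, wy_pt hl y hy hk]
        linarith
    · have h3 := hy i k hk
      refine ⟨i, k + 1, k, by omega, by omega, h2, h1, ?_, ?_⟩
      · rw [h1, h2, Sym2.eq_swap, wy_pt hl y hy hk, abs_sub_comm, abs_of_pos (by linarith)]
      · rw [h1, h2, Sym2.eq_swap, wy_pt hl y hy hk]
        linarith
  refine ⟨wy l y, fun e he => ?_, fun u v q _ => ?_⟩
  · induction e using Sym2.ind with
    | _ u x =>
      obtain ⟨i, a, b, -, -, -, -, -, h⟩ := adjw u x he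
      exact h
  · have key : ∀ (u v : TV l) (q : (theta l).Walk u v), dd (wy l y) P u v ≤ wt (wy l y) q := by
      intro u v q
      induction q with
      | nil => rw [dd_self, wt_nil]
      | cons h q ih =>
        obtain ⟨i, a, b, ha, hb, h1, h2, h3, -⟩ := adjw _ _ h
        rename_i u' v' w'
        have ih' : dd (wy l y) P (pt i b) w' ≤ wt (wy l y) q := by rw [← h2]; exact ih
        have := lipschitz hl hP y hy L hL hst hsym hM hA hA' hB hB' hC hC' hD hD' ha hb w'
        rw [wt_cons, h3, h1]
        linarith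
    exact key u v q

end Criterion

/-! ## Realizing monotone relations by numbers -/

lemma initial_segment (N : ℕ) (Q : ℕ → Prop) (hQ : ∀ m m', m' ≤ m → m < N → Q m → Q m') :
    ∃ n, n ≤ N ∧ ∀ m, m < N → (Q m ↔ m < n) := by
  classical
  by_cases h : ∃ m, m < N ∧ ¬ Q m
  · refine ⟨Nat.find h, (Nat.find_spec h).1.le, fun m hm => ?_⟩
    constructor
    · intro h1
      by_contra h2
      exact (Nat.find_spec h).2 (hQ m _ (by omega) hm h1)
    · intro h1
      by_contra h2
      exact Nat.find_min h h1 ⟨hm, h2⟩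
  · refine ⟨N, le_rfl, fun m hm => ⟨fun _ => hm, fun _ => ?_⟩⟩
    by_contra h2
    exact h ⟨m, hm, h2⟩

lemma ferrers (K N : ℕ) (R : ℕ → ℕ → Prop)
    (hR : ∀ k k' m m', k' ≤ k → m' ≤ m → k < K → m < N → R k m → R k' m') :
    ∃ f g : ℕ → ℝ, (∀ k, k + 1 < K → f (k + 1) < f k) ∧ (∀ m, m + 1 < N → g m < g (m + 1)) ∧
      (∀ k m, k < K → m < N → R k m → g m < f k) ∧
      (∀ k m, k < K → m < N → ¬ R k m → f k < g m) := by
  have h1 : ∀ k, ∃ n, k < K → n ≤ N ∧ ∀ m, m < N → (R k m ↔ m < n) := by
    intro k
    by_cases hk : k < K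
    · obtain ⟨n, h2, h3⟩ := initial_segment N (R k)
        (fun m m' h4 h5 h6 => hR k k m m' le_rfl h4 hk h5 h6)
      exact ⟨n, fun _ => ⟨h2, h3⟩⟩
    · exact ⟨0, fun h => absurd h hk⟩
  choose n hn using h1
  have hmono : ∀ k, k + 1 < K → n (k + 1) ≤ n k := by
    intro k hk
    by_contra h2
    have h3 := (hn (k + 1) hk).1
    have h4 := ((hn (k + 1) hk).2 (n k) (by omega)).2 (by omega)
    have h5 := hR (k + 1) k (n k) (n k) (by omega) le_rfl hk (by omega) h4
    have h6 := ((hn k (by omega)).2 (n k) (by omega)).1 h5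
    omega
  have hKpos : (0 : ℝ) < 2 * (K + 1) := by positivity
  refine ⟨fun k => (n k : ℝ) - (k + 1) / (2 * (K + 1)), fun m => m, fun k hk => ?_, fun m hm => ?_,
    fun k m hk hm h => ?_, fun k m hk hm h => ?_⟩
  · have h2 : (n (k + 1) : ℝ) ≤ n k := by exact_mod_cast hmono k hk
    have h3 : ((k : ℝ) + 1) / (2 * (K + 1)) < (((k + 1 : ℕ) : ℝ) + 1) / (2 * (K + 1)) := by
      apply div_lt_div_of_pos_right _ hKpos
      push_cast
      linarith
    simp only
    linarith
  · simp
  · have h2 := ((hn k hk).2 m hm).1 h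
    have h3 : (m : ℝ) + 1 ≤ n k := by exact_mod_cast h2
    have h4 : ((k : ℝ) + 1) / (2 * (K + 1)) < 1 := by
      rw [div_lt_one hKpos]
      have : (k : ℝ) < K := by exact_mod_cast hk
      linarith
    simp only
    linarith
  · have h2 : n k ≤ m := by
      by_contra h3
      exact h (((hn k hk).2 m hm).2 (by omega))
    have h3 : (n k : ℝ) ≤ m := by exact_mod_cast h2
    have h4 : 0 < ((k : ℝ) + 1) / (2 * (K + 1)) := by positivity
    simp only
    linarith

lemma threshold (n : ℕ) (f : ℕ → ℝ) (hf : ∀ a, a + 1 < n → f (a + 1) < f a) (Q : ℕ → Prop)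
    (hQ : ∀ m m', m' ≤ m → m < n → Q m → Q m') :
    ∃ t : ℝ, ∀ a, a < n → (Q a → t ≤ f a) ∧ (¬ Q a → f a ≤ t) := by
  obtain ⟨r, hr, h1⟩ := initial_segment n Q hQ
  have hanti : ∀ a b, a ≤ b → b < n → f b ≤ f a := by
    intro a b hab hb
    induction b, hab using Nat.le_induction with
    | base => exact le_rfl
    | succ m hm ih =>
      have := hf m hb
      have := ih (by omega)
      linarith
  rcases Nat.eq_zero_or_pos r with h0 | h0
  · refine ⟨f 0, fun a ha => ⟨fun h => ?_, fun _ => hanti 0 a (by omega) ha⟩⟩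
    have := (h1 a ha).1 h
    omega
  · refine ⟨f (r - 1), fun a ha => ⟨fun h => ?_, fun h => ?_⟩⟩
    · have := (h1 a ha).1 h
      exact hanti a (r - 1) (by omega) (by omega)
    · have : r ≤ a := by
        by_contra h2
        exact h ((h1 a ha).2 (by omega))
      exact hanti (r - 1) a (by omega) ha

/-- The numbers `n i` are such that monotone relations between three chains with `n i` elements
are given by the signs of sums. -/
def WR (n : Fin 3 → ℕ) : Prop :=
  ∀ Q : Fin 3 → Fin 3 → ℕ → ℕ → Prop, (∀ i j a b, Q i j a b → Q j i b a) →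
    (∀ i j, i ≠ j → ∀ a a' b b', a' ≤ a → b' ≤ b → a < n i → b < n j → Q i j a b →
      Q i j a' b') →
    ∃ z : Fin 3 → ℕ → ℝ, (∀ i a, a + 1 < n i → z i (a + 1) < z i a) ∧
      ∀ i j, i ≠ j → ∀ a b, a < n i → b < n j →
        (Q i j a b → 0 ≤ z i a + z j b) ∧ (¬ Q i j a b → z i a + z j b ≤ 0)

lemma WR_one (n : Fin 3 → ℕ) (hn : n 0 ≤ 1) : WR n := by
  intro Q hs hm
  obtain ⟨f, g, hf, hg, hfg, hfg'⟩ := ferrers (n 1) (n 2) (Q 1 2)
    (fun k k' m m' h1 h2 h3 h4 h5 => hm 1 2 (by decide) k k' m m' h1 h2 h3 h4 h5)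
  by_cases h0 : n 0 = 0
  · refine ⟨fun i a => if i = 1 then f a else if i = 2 then - g a else 0, ?_, ?_⟩
    · intro i a ha
      fin_cases i
      · simp at ha; omega
      · simpa using hf a ha
      · simpa using hg a ha
    · intro i j hij a b ha hb
      fin_cases i <;> fin_cases j
      · exact absurd rfl hij
      · simp at ha; omega
      · simp at ha; omega
      · simp at hb; omega
      · exact absurd rfl hij
      · refine ⟨fun h => ?_, fun h => ?_⟩
        · have := hfg a b ha hb h
          simp; linarith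
        · have := hfg' a b ha hb h
          simp; linarith
      · simp at hb; omega
      · refine ⟨fun h => ?_, fun h => ?_⟩
        · have := hfg b a hb ha (hs _ _ _ _ h)
          simp; linarith
        · have := hfg' b a hb ha (fun h' => h (hs _ _ _ _ h'))
          simp; linarith
      · exact absurd rfl hij
  · have h1 : n 0 = 1 := by omega
    obtain ⟨t1, ht1⟩ := threshold (n 1) f hf (fun a => Q 0 1 0 a) (fun m m' h2 h3 h4 =>
      hm 0 1 (by decide) 0 0 m m' le_rfl h2 (by omega) h3 h4)
    obtain ⟨t2, ht2⟩ := threshold (n 2) (fun a => - g a) (fun a ha => by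
      have := hg a ha
      linarith) (fun a => Q 0 2 0 a) (fun m m' h2 h3 h4 =>
      hm 0 2 (by decide) 0 0 m m' le_rfl h2 (by omega) h3 h4)
    refine ⟨fun i a => if i = 1 then f a - (t1 - t2) / 2 else if i = 2 then - g a + (t1 - t2) / 2
      else - (t1 + t2) / 2, ?_, ?_⟩
    · intro i a ha
      fin_cases i
      · simp at ha; omega
      · simpa using hf a ha
      · have := hg a ha
        simp
        linarith
    · intro i j hij a b ha hb
      fin_cases i <;> fin_cases j
      · exact absurd rfl hij
      · have ha0 : a = 0 := by simp at ha; omega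
        subst ha0
        refine ⟨fun h => ?_, fun h => ?_⟩
        · have := (ht1 b hb).1 h
          simp; linarith
        · have := (ht1 b hb).2 h
          simp; linarith
      · have ha0 : a = 0 := by simp at ha; omega
        subst ha0
        refine ⟨fun h => ?_, fun h => ?_⟩
        · have := (ht2 b hb).1 h
          simp; linarith
        · have := (ht2 b hb).2 h
          simp; linarith
      · have hb0 : b = 0 := by simp at hb; omega
        subst hb0
        refine ⟨fun h => ?_, fun h => ?_⟩
        · have := (ht1 a ha).1 (hs _ _ _ _ h)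
          simp; linarith
        · have := (ht1 a ha).2 (fun h' => h (hs _ _ _ _ h'))
          simp; linarith
      · exact absurd rfl hij
      · refine ⟨fun h => ?_, fun h => ?_⟩
        · have := hfg a b ha hb h
          simp; linarith
        · have := hfg' a b ha hb h
          simp; linarith
      · have hb0 : b = 0 := by simp at hb; omega
        subst hb0
        refine ⟨fun h => ?_, fun h => ?_⟩
        · have := (ht2 a ha).1 (hs _ _ _ _ h)
          simp; linarith
        · have := (ht2 a ha).2 (fun h' => h (hs _ _ _ _ h'))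
          simp; linarith
      · refine ⟨fun h => ?_, fun h => ?_⟩
        · have := hfg b a hb ha (hs _ _ _ _ h)
          simp; linarith
        · have := hfg' b a hb ha (fun h' => h (hs _ _ _ _ h'))
          simp; linarith
      · exact absurd rfl hij

/-! ## The construction of the weights -/

/-- The coordinates on the two outer parts of a branch. -/
lemma outer {l : Fin 3 → ℕ} (hl : ∀ i, 2 ≤ l i) {P : PathSystem (theta l)} (hP : P.Consistent)
    (i : Fin 3) (σ τ : ℕ) (hσ : σ < τ) (hτ : τ ≤ l i) :
    ∃ p q : ℕ → ℝ, (∀ k, k < σ → p (k + 1) < p k) ∧ (∀ k, k ≤ σ → 0 ≤ p k) ∧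
      (∀ m, τ ≤ m → m < l i → q m < q (m + 1)) ∧ (∀ m, τ ≤ m → m ≤ l i → 0 ≤ q m) ∧
      p 0 = q (l i) ∧
      (∀ k m, 0 < k → k ≤ σ → τ ≤ m → m < l i → On P TV.s (pt i k) (pt i m) →
        p 0 ≤ p k + q m) ∧
      (∀ k m, 0 < k → k ≤ σ → τ ≤ m → m < l i → ¬ On P TV.s (pt i k) (pt i m) →
        p k + q m ≤ p 0) := by
  obtain ⟨f, g, hf, hg, hfg, hfg'⟩ := ferrers (σ + 1) (l i - τ + 1)
    (fun k b => k = 0 ∨ b = 0 ∨ On P TV.s (pt i k) (pt i (l i - b))) (by
      intro k k' b b' h1 h2 h3 h4 h5
      rcases Nat.eq_zero_or_pos k' with h6 | h6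
      · exact Or.inl h6
      rcases Nat.eq_zero_or_pos b' with h7 | h7
      · exact Or.inr (Or.inl h7)
      rcases h5 with h5 | h5 | h5
      · omega
      · omega
      · right; right
        exact around_mono hl hP (fun _ k => - (k : ℝ)) (fun i k _ => by push_cast; linarith)
          h6 h1 (by omega) (by omega) (by omega) h5)
  refine ⟨fun k => f k - g 0, fun m => f 0 - g (l i - m), ?_, ?_, ?_, ?_, ?_, ?_, ?_⟩
  · intro k hk
    have := hf k (by omega)
    simp only
    linarith
  · intro k hk
    have := hfg k 0 (by omega) (by omega) (Or.inr (Or.inl rfl))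
    simp only
    linarith
  · intro m h1 h2
    have := hg (l i - (m + 1)) (by omega)
    rw [show l i - (m + 1) + 1 = l i - m by omega] at this
    simp only
    linarith
  · intro m h1 h2
    have := hfg 0 (l i - m) (by omega) (by omega) (Or.inl rfl)
    simp only
    linarith
  · simp
  · intro k m h1 h2 h3 h4 h5
    have := hfg k (l i - m) (by omega) (by omega)
      (Or.inr (Or.inr (by rw [show l i - (l i - m) = m by omega]; exact h5)))
    simp only
    linarith
  · intro k m h1 h2 h3 h4 h5
    have := hfg' k (l i - m) (by omega) (by omega) (by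
      rintro (h | h | h)
      · omega
      · omega
      · rw [show l i - (l i - m) = m by omega] at h
        exact h5 h)
    simp only
    linarith

theorem metrizable_theta {l : Fin 3 → ℕ} (hl : ∀ i, 2 ≤ l i)
    (hW : ∀ n : Fin 3 → ℕ, (∀ i, n i ≤ l i - 1) → WR n) : Metrizable (theta l) := by
  intro P hP
  -- auxiliary coordinates
  obtain ⟨y0, hy0⟩ : ∃ y0 : Fin 3 → ℕ → ℝ, ∀ i k, k < l i → y0 i (k + 1) < y0 i k :=
    ⟨fun _ k => - (k : ℝ), fun i k _ => by push_cast; linarith⟩
  obtain ⟨X, hX, hXd⟩ := main_branch hl hP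
  -- the types of the vertices
  have hσ : ∀ i, ∃ σ, σ < l i ∧ ∀ k, 0 < k → k < l i → (On P TV.s (pt i k) TV.t ↔ k ≤ σ) := by
    intro i
    have h2 := hl i
    obtain ⟨n, hn, h1⟩ := initial_segment (l i - 1) (fun m => On P TV.s (pt i (m + 1)) TV.t)
      (fun m m' h1 h2 h3 => typeA_mono hl hP y0 hy0 (by omega) (by omega) (by omega) h3)
    refine ⟨n, by omega, fun k h3 h4 => ?_⟩
    have := h1 (k - 1) (by omega)
    rw [show k - 1 + 1 = k by omega] at this
    rw [this]
    omega
  have hτ : ∀ i, ∃ τ, 0 < τ ∧ τ ≤ l i ∧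
      ∀ k, 0 < k → k < l i → (On P TV.t (pt i k) TV.s ↔ τ ≤ k) := by
    intro i
    have h2 := hl i
    obtain ⟨n, hn, h1⟩ := initial_segment (l i - 1)
      (fun m => On P TV.t (pt i (l i - 1 - m)) TV.s)
      (fun m m' h1 h2 h3 => typeB_mono hl hP y0 hy0 (by omega) (by omega) (by omega) h3)
    refine ⟨l i - n, by omega, by omega, fun k h3 h4 => ?_⟩
    have := h1 (l i - 1 - k) (by omega)
    rw [show l i - 1 - (l i - 1 - k) = k by omega] at this
    rw [this]
    omega
  choose σ hσl hσ using hσ
  choose τ hτ0 hτl hτ using hτ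
  have hστ : ∀ i, σ i < τ i := by
    intro i
    by_contra h
    have h1 := (hσ i (τ i) (hτ0 i) (lt_of_le_of_lt (not_lt.1 h) (hσl i))).2 (not_lt.1 h)
    have h2 := (hτ i (τ i) (hτ0 i) (lt_of_le_of_lt (not_lt.1 h) (hσl i))).2 le_rfl
    exact not_both hP h1 h2
  have hXA : ∀ k, 0 < k → k < l X → ¬ On P TV.s (pt X k) TV.t := by
    intro k h1 h2 h3
    have h4 := h3.antisymm hP (hX k (by omega))
    rw [← pt_zero X] at h4
    have := pt_inj' hl (by omega) (by omega) h4
    omega
  have hXB : ∀ k, 0 < k → k < l X → ¬ On P TV.t (pt X k) TV.s := by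
    intro k h1 h2 h3
    have h4 := h3.antisymm hP (hX k (by omega)).symm
    rw [← pt_end X (by omega)] at h4
    have := pt_inj' hl (by omega) (by omega) h4
    omega
  have hσX : σ X = 0 := by
    by_contra h
    have h1 := hσl X
    exact hXA (σ X) (by omega) h1 ((hσ X (σ X) (by omega) h1).2 le_rfl)
  have hτX : τ X = l X := by
    by_contra h
    have h1 := hτl X
    have h2 := hτ0 X
    exact hXB (τ X) h2 (by omega) ((hτ X (τ X) h2 (by omega)).2 le_rfl)
  -- the inner parts
  obtain ⟨z, hz, hzQ⟩ := hW (fun i => τ i - σ i - 1) (fun i => by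
    have := hτl i
    omega)
    (fun i j a b => On P TV.s (pt i (σ i + 1 + a)) (pt j (σ j + 1 + b)))
    (fun i j a b h => h.symm) (by
      intro i j hij a a' b b' h1 h2 h3 h4 h5
      simp only at h3 h4
      have hi := hτl i
      have hj := hτl j
      refine cross_mono hl hP y0 hy0 (by omega) (by omega) (by omega) (by omega) (by omega)
        (by omega) ?_ ?_ h5
      · rw [hτ i _ (by omega) (by omega)]
        omega
      · rw [hτ j _ (by omega) (by omega)]
        omega)
  simp only at hz hzQ
  obtain ⟨L, hL, hzL⟩ : ∃ L : ℝ, 0 < L ∧ ∀ i a, a < τ i - σ i - 1 → |z i a| < L := by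
    refine ⟨1 + ∑ i, ∑ a ∈ Finset.range (τ i - σ i - 1), |z i a|, ?_, fun i a ha => ?_⟩
    · have : 0 ≤ ∑ i, ∑ a ∈ Finset.range (τ i - σ i - 1), |z i a| :=
        Finset.sum_nonneg fun i _ => Finset.sum_nonneg fun a _ => abs_nonneg _
      linarith
    · have h1 : |z i a| ≤ ∑ a ∈ Finset.range (τ i - σ i - 1), |z i a| :=
        Finset.single_le_sum (f := fun a => |z i a|) (fun a _ => abs_nonneg _)
          (Finset.mem_range.2 ha)
      have h2 : ∑ a ∈ Finset.range (τ i - σ i - 1), |z i a| ≤
          ∑ i, ∑ a ∈ Finset.range (τ i - σ i - 1), |z i a| :=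
        Finset.single_le_sum (f := fun i => ∑ a ∈ Finset.range (τ i - σ i - 1), |z i a|)
          (fun i _ => Finset.sum_nonneg fun a _ => abs_nonneg _) (Finset.mem_univ i)
      linarith
  -- the outer parts
  have hout : ∀ i, ∃ p q : ℕ → ℝ, (∀ k, k < σ i → p (k + 1) < p k) ∧
      (∀ k, k ≤ σ i → 0 ≤ p k) ∧
      (∀ m, τ i ≤ m → m < l i → q m < q (m + 1)) ∧ (∀ m, τ i ≤ m → m ≤ l i → 0 ≤ q m) ∧
      p 0 = q (l i) ∧
      (∀ k m, 0 < k → k ≤ σ i → τ i ≤ m → m < l i → On P TV.s (pt i k) (pt i m) →
        p 0 ≤ p k + q m) ∧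
      (∀ k m, 0 < k → k ≤ σ i → τ i ≤ m → m < l i → ¬ On P TV.s (pt i k) (pt i m) →
        p k + q m ≤ p 0) ∧ (i = X → p 0 = 0) := by
    intro i
    by_cases hi : i = X
    · subst hi
      refine ⟨fun _ => 0, fun _ => 0, fun k hk => by omega, fun _ _ => le_rfl,
        fun m hm hm' => by omega, fun _ _ _ => le_rfl, rfl, fun k m h1 h2 => by omega,
        fun k m h1 h2 => by omega, fun _ => rfl⟩
    · obtain ⟨p, q, h1, h2, h3, h4, h5, h6, h7⟩ := outer hl hP i (σ i) (τ i) (hστ i) (hτl i)
      exact ⟨p, q, h1, h2, h3, h4, h5, h6, h7, fun h => absurd h hi⟩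
  choose p q hp hp0 hq hq0 hpq hpq1 hpq2 hpX using hout
  set y : Fin 3 → ℕ → ℝ := fun i k => if k ≤ σ i then L + p i k else
    if k < τ i then z i (k - σ i - 1) else - L - q i k with hydef
  have yA : ∀ i k, k ≤ σ i → y i k = L + p i k := by
    intro i k h
    simp only [hydef]
    rw [if_pos h]
  have yW : ∀ i k, σ i < k → k < τ i → y i k = z i (k - σ i - 1) := by
    intro i k h h'
    simp only [hydef]
    rw [if_neg (by omega), if_pos h']
  have yB : ∀ i k, τ i ≤ k → y i k = - L - q i k := by
    intro i k h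
    have := hστ i
    simp only [hydef]
    rw [if_neg (by omega), if_neg (by omega)]
  have hzL' : ∀ i a, a < τ i - σ i - 1 → z i a < L ∧ - L < z i a := by
    intro i a ha
    have := abs_lt.1 (hzL i a ha)
    exact ⟨this.2, this.1⟩
  have hy : ∀ i k, k < l i → y i (k + 1) < y i k := by
    intro i k hk
    have h1 := hστ i
    have h2 := hτl i
    rcases lt_or_ge k (σ i) with h3 | h3
    · rw [yA i k (by omega), yA i (k + 1) (by omega)]
      have := hp i k h3
      linarith
    rcases lt_or_ge k (τ i) with h4 | h4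
    · rcases Nat.eq_or_lt_of_le h3 with h5 | h5
      · rw [yA i k (by omega)]
        have h6 := hp0 i k (by omega)
        rcases lt_or_ge (k + 1) (τ i) with h7 | h7
        · rw [yW i (k + 1) (by omega) h7]
          have := (hzL' i (k + 1 - σ i - 1) (by omega)).1
          linarith
        · rw [yB i (k + 1) h7]
          have := hq0 i (k + 1) (by omega) (by omega)
          linarith
      · rw [yW i k (by omega) h4]
        have h6 := hzL' i (k - σ i - 1) (by omega)
        rcases lt_or_ge (k + 1) (τ i) with h7 | h7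
        · rw [yW i (k + 1) (by omega) h7]
          have := hz i (k - σ i - 1) (by omega)
          rw [show k - σ i - 1 + 1 = k + 1 - σ i - 1 by omega] at this
          exact this
        · rw [yB i (k + 1) h7]
          have := hq0 i (k + 1) (by omega) (by omega)
          linarith
    · rw [yB i k h4, yB i (k + 1) (by omega)]
      have := hq i k h4 hk
      linarith
  have hanti : ∀ i a b, a ≤ b → b ≤ l i → y i b ≤ y i a := fun i a b h1 h2 =>
    y_anti hl y hy h1 h2
  have hsym : ∀ i, y i (l i) = - y i 0 := by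
    intro i
    rw [yA i 0 (by omega), yB i (l i) (hτl i), hpq i]
    ring
  have hyX : y X 0 = L := by rw [yA X 0 (by omega), hpX X rfl]; ring
  have hupper : ∀ i k, σ i < k → y i k ≤ L ∨ l i < k := by
    intro i k h
    by_cases h1 : l i < k
    · exact Or.inr h1
    left
    rcases lt_or_ge k (τ i) with h3 | h3
    · rw [yW i k h h3]
      exact (hzL' i _ (by omega)).1.le
    · rw [yB i k h3]
      have := hq0 i k h3 (by omega)
      linarith
  have hlower : ∀ i k, k < τ i → - L ≤ y i k := by
    intro i k h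
    rcases le_or_gt k (σ i) with h3 | h3
    · rw [yA i k h3]
      have := hp0 i k h3
      linarith
    · rw [yW i k h3 h]
      exact (hzL' i _ (by omega)).2.le
  refine metrizable_of hl hP y hy L hL ?_ hsym ?_ ?_ ?_ ?_ ?_ ?_ ?_ ?_ ?_
  · rw [hXd y hy, hsym, hyX]
    ring
  · intro i
    rw [yA i 0 (by omega)]
    have := hp0 i 0 (by omega)
    linarith
  · intro i k h1 h2 h3
    have h4 := (hσ i k h1 h2).1 h3
    rw [yA i k h4]
    have := hp0 i k h4
    linarith
  · intro i k h1 h2 h3
    have h4 : σ i < k := by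
      by_contra h5
      exact h3 ((hσ i k h1 h2).2 (by omega))
    rcases hupper i k h4 with h5 | h5
    · exact h5
    · omega
  · intro i k h1 h2 h3
    have h4 := (hτ i k h1 h2).1 h3
    rw [yB i k h4]
    have := hq0 i k h4 h2.le
    linarith
  · intro i k h1 h2 h3
    apply hlower
    by_contra h5
    exact h3 ((hτ i k h1 h2).2 (by omega))
  · intro i k m h1 h2 h3 h4
    obtain ⟨h5, h6⟩ := around_types hl hP y0 hy0 h1 h2 h3 h4
    have h7 := (hσ i k h1 (by omega)).1 h6
    have h8 := (hτ i m (by omega) h3).1 h5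
    rw [yA i k h7, yB i m h8, yA i 0 (by omega)]
    have := hpq1 i k m h1 h7 h8 h3 h4
    linarith
  · intro i k m h1 h2 h3 h4
    rcases le_or_gt k (σ i) with h5 | h5
    · rcases le_or_gt (τ i) m with h6 | h6
      · rw [yA i k h5, yB i m h6, yA i 0 (by omega)]
        have := hpq2 i k m h1 h5 h6 h3 h4
        linarith
      · have h7 := hlower i m h6
        have h8 := hanti i 0 k (by omega) (by omega)
        linarith
    · rcases hupper i k h5 with h7 | h7
      · have h8 := hanti i m (l i) (by omega) le_rfl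
        rw [hsym] at h8
        linarith
      · omega
  · intro i j k m hij h1 h2 h3 h4 h5 h6 h7 h8 h9
    rw [hσ i k h1 h2] at h5
    rw [hτ i k h1 h2] at h6
    rw [hσ j m h3 h4] at h7
    rw [hτ j m h3 h4] at h8
    rw [yW i k (by omega) (by omega), yW j m (by omega) (by omega)]
    refine (hzQ i j hij (k - σ i - 1) (m - σ j - 1) (by omega) (by omega)).1 ?_
    rw [show σ i + 1 + (k - σ i - 1) = k by omega, show σ j + 1 + (m - σ j - 1) = m by omega]
    exact h9
  · intro i j k m hij h1 h2 h3 h4 h5 h6 h7 h8 h9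
    rw [hσ i k h1 h2] at h5
    rw [hτ i k h1 h2] at h6
    rw [hσ j m h3 h4] at h7
    rw [hτ j m h3 h4] at h8
    rw [yW i k (by omega) (by omega), yW j m (by omega) (by omega)]
    refine (hzQ i j hij (k - σ i - 1) (m - σ j - 1) (by omega) (by omega)).2 ?_
    rw [show σ i + 1 + (k - σ i - 1) = k by omega, show σ j + 1 + (m - σ j - 1) = m by omega]
    exact h9

end Pool.Agent.H518.ThetaCore
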