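import Mathlib

/-!
# Consistent path systems, metrizability and theta graphs: definitions
-/

set_option autoImplicit false

namespace Pool.Agent.H518.ThetaDefs

open SimpleGraph

/-- The weight of a walk: the sum of the weights of its edges. -/
noncomputable def wt {V : Type} {G : SimpleGraph V} (w : Sym2 V → ℝ) {u v : V}
    (p : G.Walk u v) : ℝ := (p.edges.map w).sum

/-- A path system: one path `path u v` for every pair `u, v` (the same path, read backwards, for
`v, u`). -/
structure PathSystem {V : Type} (G : SimpleGraph V) where
  path : ∀ u v : V, G.Walk u v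
  isPath : ∀ u v, (path u v).IsPath
  symm : ∀ u v, path v u = (path u v).reverse

/-- A path system is consistent when every subpath of one of its paths is one of its paths. -/
def PathSystem.Consistent {V : Type} {G : SimpleGraph V} (P : PathSystem G) : Prop :=
  ∀ (u v x y : V) (p : G.Walk u x) (q : G.Walk x y) (r : G.Walk y v),
    P.path u v = p.append (q.append r) → P.path x y = q

/-- A path system is metrizable when positive edge weights make each of its paths a shortest
path. -/
def PathSystem.IsMetrizable {V : Type} {G : SimpleGraph V} (P : PathSystem G) : Prop :=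
  ∃ w : Sym2 V → ℝ, (∀ e ∈ G.edgeSet, 0 < w e) ∧
    ∀ (u v : V) (q : G.Walk u v), q.IsPath → wt w (P.path u v) ≤ wt w q

/-- A graph is metrizable when all its consistent path systems are. -/
def Metrizable {V : Type} (G : SimpleGraph V) : Prop :=
  ∀ P : PathSystem G, P.Consistent → P.IsMetrizable

/-- The vertices of a theta graph whose three paths have `l 0`, `l 1` and `l 2` edges: the two
branch vertices `s` and `t`, and the `l i - 1` inner vertices of the `i`-th path. -/
inductive TV (l : Fin 3 → ℕ) : Type
  | s : TV l
  | t : TV l
  | mid (i : Fin 3) (k : Fin (l i - 1)) : TV l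

/-- The vertex number `k` of the `i`-th path: `s` for `k = 0`, `t` for `k = l i`. -/
def pt {l : Fin 3 → ℕ} (i : Fin 3) (k : ℕ) : TV l :=
  if k = 0 then TV.s else if h : k - 1 < l i - 1 then TV.mid i ⟨k - 1, h⟩ else TV.t

/-- The theta graph whose three paths have `l 0`, `l 1` and `l 2` edges. -/
def theta (l : Fin 3 → ℕ) : SimpleGraph (TV l) :=
  SimpleGraph.fromRel fun u v => ∃ i k, k < l i ∧ u = pt i k ∧ v = pt i (k + 1)

end Pool.Agent.H518.ThetaDefs
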