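import Pool.Agent.H518.ThetaCore

/-!
# The theta graph with three paths of length three is metrizable
-/

set_option autoImplicit false
set_option linter.unusedVariables false

namespace Pool.Agent.H518.ThetaThreeAux

open Pool.Agent.H518.ThetaDefs Pool.Agent.H518.ThetaCore

/-- The monotone relations between two chains with two elements. -/
def cN (c a : ℕ) : ℕ :=
  if a = 0 then (if c = 0 then 0 else if c ≤ 2 then 1 else 2)
  else (if c = 5 then 2 else if c = 2 ∨ c = 4 then 1 else 0)

/-- The values realizing the relations, coded in base five. -/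
def tab : List ℕ :=
  [10755, 7161, 3566, 3561, 3567, 3567, 10761, 10141, 9521, 7167, 7167, 3573, 10766, 10771,
   10771, 7167, 7172, 3573, 10761, 10142, 9523, 9523, 9523, 6548, 10767, 10772, 10772, 10148,
   10148, 7173, 10767, 10773, 10773, 10773, 10773, 7173, 10905, 10405, 7311, 9905, 7311, 3717,
   14505, 14010, 13020, 13020, 13020, 7317, 14515, 14520, 14520, 13020, 13020, 7322, 14505,
   14011, 13020, 13517, 13023, 9923, 14516, 14521, 14521, 14022, 14022, 10423, 14517, 14523,
   14523, 14523, 14523, 10923, 11030, 11155, 7435, 11155, 7436, 3717, 14755, 14880, 13020,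
   14880, 13020, 7442, 14755, 14895, 14895, 14895, 14895, 7447, 14755, 14880, 13020, 14880,
   13023, 9923, 14755, 14895, 14895, 14896, 14896, 10548, 14636, 14771, 14771, 14898, 14898,
   11173, 10905, 10430, 9955, 9955, 9955, 6836, 14505, 14035, 13565, 13080, 13095, 9971, 14515,
   14520, 14520, 13020, 13095, 9971, 14505, 14036, 13566, 13561, 13567, 13567, 14516, 14521,
   14521, 14042, 14047, 13573, 14517, 14523, 14523, 14523, 14523, 14048, 11055, 11180, 10580,
   11180, 10580, 7461, 14780, 14905, 14310, 14905, 14310, 10591, 14780, 14915, 14920, 14915,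
   14920, 10596, 14780, 14905, 14310, 14905, 14311, 13717, 14780, 14915, 14920, 14916, 14921,
   14322, 14661, 14791, 14796, 14917, 14923, 14923, 11055, 11205, 11205, 11205, 11205, 7461,
   14805, 14955, 14955, 14955, 14955, 11211, 14805, 14955, 14970, 14955, 14970, 11221, 14805,
   14955, 14955, 14955, 14955, 14336, 14805, 14955, 14970, 14955, 14971, 14971, 14661, 14811,
   14821, 14936, 14971, 14973]

/-- Decoding of the values. -/
def val (v i a : ℕ) : ℤ := ((v / 5 ^ (5 - 2 * i - a) % 5 : ℕ) : ℤ) - 2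

/-- The values realize the three relations. -/
def Good (c0 c1 c2 v : ℕ) : Prop :=
  (val v 0 1 < val v 0 0 ∧ val v 1 1 < val v 1 0 ∧ val v 2 1 < val v 2 0) ∧
  ∀ a < 2, ∀ b < 2,
    (if b < cN c0 a then 0 ≤ val v 0 a + val v 1 b else val v 0 a + val v 1 b ≤ 0) ∧
    (if b < cN c1 a then 0 ≤ val v 0 a + val v 2 b else val v 0 a + val v 2 b ≤ 0) ∧
    (if b < cN c2 a then 0 ≤ val v 1 a + val v 2 b else val v 1 a + val v 2 b ≤ 0)

instance (c0 c1 c2 v : ℕ) : Decidable (Good c0 c1 c2 v) := by
  unfold Good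
  infer_instance

lemma good_tab : ∀ c0 < 6, ∀ c1 < 6, ∀ c2 < 6,
    Good c0 c1 c2 (tab.getD (36 * c0 + 6 * c1 + c2) 0) := by
  decide +kernel

lemma code (R : ℕ → ℕ → Prop)
    (hR : ∀ a a' b b', a' ≤ a → b' ≤ b → a < 2 → b < 2 → R a b → R a' b') :
    ∃ c < 6, ∀ a < 2, ∀ b < 2, (R a b ↔ b < cN c a) := by
  obtain ⟨n0, h0, h1⟩ := initial_segment 2 (R 0)
    (fun m m' h2 h3 h4 => hR 0 0 m m' le_rfl h2 (by omega) h3 h4)
  obtain ⟨n1, h2, h3⟩ := initial_segment 2 (R 1)
    (fun m m' h2 h3 h4 => hR 1 1 m m' le_rfl h2 (by omega) h3 h4)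
  have hle : n1 ≤ n0 := by
    by_contra h4
    have h5 := (h3 n0 (by omega)).2 (by omega)
    have h6 := hR 1 0 n0 n0 (by omega) le_rfl (by omega) (by omega) h5
    have h7 := (h1 n0 (by omega)).1 h6
    omega
  have key : ∃ c < 6, cN c 0 = n0 ∧ cN c 1 = n1 := by
    interval_cases n0 <;> interval_cases n1
    · exact ⟨0, by decide, by decide, by decide⟩
    · exact ⟨1, by decide, by decide, by decide⟩
    · exact ⟨2, by decide, by decide, by decide⟩
    · exact ⟨3, by decide, by decide, by decide⟩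
    · exact ⟨4, by decide, by decide, by decide⟩
    · exact ⟨5, by decide, by decide, by decide⟩
  obtain ⟨c, hc, e0, e1⟩ := key
  refine ⟨c, hc, fun a ha b hb => ?_⟩
  interval_cases a
  · rw [e0]; exact h1 b hb
  · rw [e1]; exact h3 b hb

lemma WR_two (n : Fin 3 → ℕ) (hn : ∀ i, n i ≤ 2) : WR n := by
  intro Q hs hm
  have hcode : ∀ i j : Fin 3, i ≠ j → ∃ c < 6, ∀ a < 2, ∀ b < 2,
      ((a < n i ∧ b < n j ∧ Q i j a b) ↔ b < cN c a) := fun i j hij =>
    code (fun a b => a < n i ∧ b < n j ∧ Q i j a b) (fun a a' b b' h1 h2 h3 h4 h5 =>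
      ⟨by omega, by omega, hm i j hij a a' b b' h1 h2 h5.1 h5.2.1 h5.2.2⟩)
  obtain ⟨c0, h0, hc0⟩ := hcode 0 1 (by decide)
  obtain ⟨c1, h1, hc1⟩ := hcode 0 2 (by decide)
  obtain ⟨c2, h2, hc2⟩ := hcode 1 2 (by decide)
  obtain ⟨hd, hg⟩ := good_tab c0 h0 c1 h1 c2 h2
  set v := tab.getD (36 * c0 + 6 * c1 + c2) 0
  have n0 := hn 0
  have n1 := hn 1
  have n2 := hn 2
  have k01 : ∀ a b, a < n 0 → b < n 1 → (Q 0 1 a b → 0 ≤ val v 0 a + val v 1 b) ∧
      (¬ Q 0 1 a b → val v 0 a + val v 1 b ≤ 0) := by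
    intro a b ha hb
    have h3 := (hg a (by omega) b (by omega)).1
    have h4 := hc0 a (by omega) b (by omega)
    refine ⟨fun h => ?_, fun h => ?_⟩
    · rw [if_pos (h4.1 ⟨ha, hb, h⟩)] at h3
      exact h3
    · rw [if_neg (fun h' => h (h4.2 h').2.2)] at h3
      exact h3
  have k02 : ∀ a b, a < n 0 → b < n 2 → (Q 0 2 a b → 0 ≤ val v 0 a + val v 2 b) ∧
      (¬ Q 0 2 a b → val v 0 a + val v 2 b ≤ 0) := by
    intro a b ha hb
    have h3 := (hg a (by omega) b (by omega)).2.1
    have h4 := hc1 a (by omega) b (by omega)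
    refine ⟨fun h => ?_, fun h => ?_⟩
    · rw [if_pos (h4.1 ⟨ha, hb, h⟩)] at h3
      exact h3
    · rw [if_neg (fun h' => h (h4.2 h').2.2)] at h3
      exact h3
  have k12 : ∀ a b, a < n 1 → b < n 2 → (Q 1 2 a b → 0 ≤ val v 1 a + val v 2 b) ∧
      (¬ Q 1 2 a b → val v 1 a + val v 2 b ≤ 0) := by
    intro a b ha hb
    have h3 := (hg a (by omega) b (by omega)).2.2
    have h4 := hc2 a (by omega) b (by omega)
    refine ⟨fun h => ?_, fun h => ?_⟩
    · rw [if_pos (h4.1 ⟨ha, hb, h⟩)] at h3
      exact h3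
    · rw [if_neg (fun h' => h (h4.2 h').2.2)] at h3
      exact h3
  have main : (∀ (i : Fin 3) (a : ℕ), a + 1 < n i → val v i (a + 1) < val v i a) ∧
      ∀ i j : Fin 3, i ≠ j → ∀ a b, a < n i → b < n j →
        (Q i j a b → 0 ≤ val v i a + val v j b) ∧ (¬ Q i j a b → val v i a + val v j b ≤ 0) := by
    constructor
    · intro i a ha
      have ha0 : a = 0 := by
        have := hn i
        omega
      subst ha0
      fin_cases i
      · exact hd.1
      · exact hd.2.1
      · exact hd.2.2
    · intro i j hij a b ha hb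
      fin_cases i <;> fin_cases j
      · exact absurd rfl hij
      · exact k01 a b ha hb
      · exact k02 a b ha hb
      · have := k01 b a hb ha
        refine ⟨fun h => ?_, fun h => ?_⟩
        · have h3 := this.1 (hs _ _ _ _ h)
          rw [add_comm] at h3
          exact h3
        · have h3 := this.2 (fun h' => h (hs _ _ _ _ h'))
          rw [add_comm] at h3
          exact h3
      · exact absurd rfl hij
      · exact k12 a b ha hb
      · have := k02 b a hb ha
        refine ⟨fun h => ?_, fun h => ?_⟩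
        · have h3 := this.1 (hs _ _ _ _ h)
          rw [add_comm] at h3
          exact h3
        · have h3 := this.2 (fun h' => h (hs _ _ _ _ h'))
          rw [add_comm] at h3
          exact h3
      · have := k12 b a hb ha
        refine ⟨fun h => ?_, fun h => ?_⟩
        · have h3 := this.1 (hs _ _ _ _ h)
          rw [add_comm] at h3
          exact h3
        · have h3 := this.2 (fun h' => h (hs _ _ _ _ h'))
          rw [add_comm] at h3
          exact h3
      · exact absurd rfl hij
  refine ⟨fun i a => (val v i a : ℝ), fun i a ha => ?_,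
    fun i j hij a b ha hb => ⟨fun h => ?_, fun h => ?_⟩⟩
  · have := main.1 i a ha
    beta_reduce
    exact_mod_cast this
  · have := (main.2 i j hij a b ha hb).1 h
    beta_reduce
    exact_mod_cast this
  · have := (main.2 i j hij a b ha hb).2 h
    beta_reduce
    exact_mod_cast this

end Pool.Agent.H518.ThetaThreeAux
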